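import Pool.Agent.Run7.h931.RS.OneTwo
import Pool.Agent.W93.LV2

/-!
# Random shifts after squares, part 1: averages over differences of squares
-/

set_option autoImplicit false

namespace Pool.Agent.Run7.h931.SQ

open Finset Filter
open Pool.Agent.Run7.h931.RS (Pw Fw gw Wd Wd_pos one_le_Pw one_le_Fw Pw_le tails mean gw_nonneg Fw_ge Fw_le_exp moments)

theorem sharp2 (η : ℝ) (hη : 0 < η) : ∃ w₀ : ℕ, 3 ≤ w₀ ∧ ∀ w : ℕ, w₀ ≤ w → ∀ H : ℕ,
    ∑ h ∈ Icc 1 H, (Real.exp (2 * Pw w * (Fw w h ^ 2 - 1)) - 1) ≤ η * H := by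
  classical
  obtain ⟨C₁, hC1, hP⟩ := Pw_le
  obtain ⟨w₁, hw13, hw1⟩ := tails (2 * C₁) (by positivity) 2 (η / 2) (by positivity)
  obtain ⟨η', hη'⟩ : ∃ η' : ℝ, η' = min η 1 := ⟨_, rfl⟩
  have hη0 : 0 < η' := by rw [hη']; exact lt_min hη one_pos
  have hη1 : η' ≤ 1 := by rw [hη']; exact min_le_right _ _
  have hη2 : η' ≤ η := by rw [hη']; exact min_le_left _ _
  obtain ⟨x₀, hx₀⟩ := eventually_atTop.1 (Pool.Agent.N384.MQ.ev_log_pow 1 (96 * C₁ / η'))
  refine ⟨max w₁ x₀, le_max_of_le_left hw13, fun w hw H => ?_⟩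
  have hw2 := hw1 w ((le_max_left _ _).trans hw) H
  have hw3 : 3 ≤ w := hw13.trans ((le_max_left _ _).trans hw)
  have hwr : (3 : ℝ) ≤ w := by exact_mod_cast hw3
  have hlw : 1 ≤ Real.log (w : ℝ) := by
    rw [Real.le_log_iff_exp_le (by linarith)]
    linarith [Real.exp_one_lt_d9]
  have hx := hx₀ w ((le_max_right _ _).trans hw)
  rw [pow_one] at hx
  have hPw := hP w hw3
  have hPw1 := one_le_Pw w
  obtain ⟨ω, hω⟩ : ∃ ω, ω = Pw w := ⟨_, rfl⟩
  rw [← hω] at hPw hPw1 ⊢
  have hωw : 96 * ω ≤ η' * w := by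
    have h1 : 96 * C₁ / η' * Real.log w * η' ≤ w * η' := mul_le_mul_of_nonneg_right hx hη0.le
    have h2 : 96 * C₁ / η' * Real.log w * η' = 96 * (C₁ * Real.log w) := by field_simp
    linarith
  rw [← sum_filter_add_sum_filter_not (Icc 1 H) (fun h => 2 < Fw w h)]
  have h1 : ∑ h ∈ (Icc 1 H).filter (fun h => 2 < Fw w h), (Real.exp (2 * ω * (Fw w h ^ 2 - 1)) - 1) ≤ η / 2 * H := by
    refine le_trans (sum_le_sum fun h _ => ?_) hw2
    have h2 : Real.exp (2 * ω * (Fw w h ^ 2 - 1)) ≤ Real.exp (2 * C₁ * (Real.log w * Fw w h) ^ 2) := by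
      apply Real.exp_le_exp.2
      have h3 := one_le_Fw w h
      calc 2 * ω * (Fw w h ^ 2 - 1) ≤ 2 * ω * Fw w h ^ 2 := by
            apply mul_le_mul_of_nonneg_left _ (by linarith)
            linarith
        _ ≤ 2 * (C₁ * Real.log w) * Fw w h ^ 2 := by
            apply mul_le_mul_of_nonneg_right _ (by positivity)
            linarith
        _ ≤ 2 * (C₁ * Real.log w ^ 2) * Fw w h ^ 2 := by
            apply mul_le_mul_of_nonneg_right _ (by positivity)
            have : Real.log w ≤ Real.log w ^ 2 := by nlinarith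
            have : C₁ * Real.log w ≤ C₁ * Real.log w ^ 2 := mul_le_mul_of_nonneg_left this (by linarith)
            linarith
        _ = _ := by ring
    linarith
  have h2 : ∑ h ∈ (Icc 1 H).filter (fun h => ¬ 2 < Fw w h), (Real.exp (2 * ω * (Fw w h ^ 2 - 1)) - 1) ≤ η / 2 * H := by
    have h3 : ∀ h ∈ (Icc 1 H).filter (fun h => ¬ 2 < Fw w h), Real.exp (2 * ω * (Fw w h ^ 2 - 1)) - 1 ≤
        Real.exp (12 * ω * gw w h) - 1 := by
      intro h hh
      rw [mem_filter, not_lt] at hh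
      have a0 := one_le_Fw w h
      have a1 := Fw_ge w h
      have a2 := Fw_le_exp w h
      have a3 := gw_nonneg w h
      have a4 : gw w h ≤ 1 := by linarith [hh.2]
      have a5 : Real.exp (gw w h) ≤ 1 + 2 * gw w h := by
        have h8 := Real.exp_bound' a3 a4 (n := 2) (by norm_num)
        simp only [Finset.sum_range_succ, Finset.sum_range_zero, pow_zero, pow_one, Nat.factorial] at h8
        norm_num at h8
        nlinarith
      have a6 : Real.exp (2 * ω * (Fw w h ^ 2 - 1)) ≤ Real.exp (12 * ω * gw w h) := by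
        apply Real.exp_le_exp.2
        have b1 : Fw w h - 1 ≤ 2 * gw w h := by linarith
        have b2 : Fw w h ^ 2 - 1 ≤ 6 * gw w h := by
          have : Fw w h ^ 2 - 1 = (Fw w h - 1) * (Fw w h + 1) := by ring
          rw [this]
          calc (Fw w h - 1) * (Fw w h + 1) ≤ (2 * gw w h) * 3 := mul_le_mul b1 (by linarith [hh.2]) (by linarith) (by positivity)
            _ = _ := by ring
        calc 2 * ω * (Fw w h ^ 2 - 1) ≤ 2 * ω * (6 * gw w h) := mul_le_mul_of_nonneg_left b2 (by linarith)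
          _ = _ := by ring
      linarith
    refine (sum_le_sum h3).trans ?_
    have h4 : ∑ h ∈ (Icc 1 H).filter (fun h => ¬ 2 < Fw w h), (Real.exp (12 * ω * gw w h) - 1) ≤
        ∑ h ∈ Icc 1 H, (Real.exp (12 * ω * gw w h) - 1) := by
      apply sum_le_sum_of_subset_of_nonneg (filter_subset _ _)
      intro h _ _
      have := gw_nonneg w h
      have : 1 ≤ Real.exp (12 * ω * gw w h) := Real.one_le_exp (by positivity)
      linarith
    refine h4.trans ?_
    rw [sum_sub_distrib, sum_const, Nat.card_Icc, Nat.add_sub_cancel, nsmul_eq_mul, mul_one]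
    have h5 := mean (12 * ω) w H (by linarith) (by nlinarith) (by omega)
    obtain ⟨u, hu⟩ : ∃ u, u = 2 * (12 * ω) / (w : ℝ) := ⟨_, rfl⟩
    rw [← hu] at h5
    have hu0 : 0 ≤ u := by rw [hu]; positivity
    have hu1 : u ≤ η' / 4 := by
      rw [hu, div_le_iff₀ (by linarith)]
      linarith
    have h6 : Real.exp u ≤ 1 + 2 * u := by
      have h8 := Real.exp_bound' hu0 (by linarith) (n := 2) (by norm_num)
      simp only [Finset.sum_range_succ, Finset.sum_range_zero, pow_zero, pow_one, Nat.factorial] at h8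
      norm_num at h8
      nlinarith
    have hH : (0 : ℝ) ≤ H := Nat.cast_nonneg H
    have h7 : H * Real.exp u ≤ H * (1 + η / 2) := mul_le_mul_of_nonneg_left (by linarith) hH
    linarith
  linarith

/-- `Fw` is submultiplicative -/
lemma Fw_mul (w a b : ℕ) (ha : 1 ≤ a) (hb : 1 ≤ b) : Fw w (a * b) ≤ Fw w a * Fw w b := by
  classical
  obtain ⟨A, hA⟩ : ∃ A, A = a.primeFactors.filter (fun p => w < p) := ⟨_, rfl⟩
  obtain ⟨B, hB⟩ : ∃ B, B = b.primeFactors.filter (fun p => w < p) := ⟨_, rfl⟩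
  have h1 : (a * b).primeFactors.filter (fun p => w < p) = A ∪ B := by
    rw [Nat.primeFactors_mul (by omega) (by omega), filter_union, hA, hB]
  have h2 : Fw w (a * b) = ∏ p ∈ A ∪ B, ((p : ℝ) / ((p : ℝ) - 1)) := by
    unfold Fw
    rw [h1]
  have h3 : Fw w a * Fw w b = (∏ p ∈ A ∪ B, ((p : ℝ) / ((p : ℝ) - 1))) * ∏ p ∈ A ∩ B, ((p : ℝ) / ((p : ℝ) - 1)) := by
    rw [prod_union_inter, hA, hB]
    rfl
  rw [h2, h3]
  apply le_mul_of_one_le_right
  · apply prod_nonneg
    intro p hp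
    have hp2 : p.Prime := by
      rw [mem_union, hA, hB, mem_filter, mem_filter] at hp
      rcases hp with hp | hp
      · exact Nat.prime_of_mem_primeFactors hp.1
      · exact Nat.prime_of_mem_primeFactors hp.1
    have := Pool.Agent.Run7.h931.RS.fac_ge hp2
    linarith
  · apply Finset.one_le_prod
    intro p hp
    rw [mem_inter, hA, mem_filter] at hp
    exact Pool.Agent.Run7.h931.RS.fac_ge (Nat.prime_of_mem_primeFactors hp.1.1)

/-- the average of two exponentials -/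
lemma exp_avg (x y : ℝ) : Real.exp (x + y) ≤ (Real.exp (2 * x) + Real.exp (2 * y)) / 2 := by
  have h1 : Real.exp (2 * x) = Real.exp x ^ 2 := by rw [← Real.exp_nat_mul]; norm_num
  have h2 : Real.exp (2 * y) = Real.exp y ^ 2 := by rw [← Real.exp_nat_mul]; norm_num
  rw [Real.exp_add, h1, h2]
  nlinarith [sq_nonneg (Real.exp x - Real.exp y)]

/-- the number of the pairs with a difference of the squares in a small set -/
lemma bad_pairs (W k₀ R X : ℕ) (hW : 1 ≤ W) (E : Finset ℕ) (hE : ∀ e ∈ E, 1 ≤ e ∧ e ≤ X) (t : ℝ) (ht : 0 < t) :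
    ((((range R) ×ˢ (Icc 1 R)).filter fun x => W ^ 2 * (x.2 * (2 * (k₀ + x.1) + x.2)) ∈ E).card : ℝ) ≤
      t * E.card + X * (1 + Real.log X) ^ 3 / t := by
  classical
  have h1 : (((range R) ×ˢ (Icc 1 R)).filter fun x => W ^ 2 * (x.2 * (2 * (k₀ + x.1) + x.2)) ∈ E).card ≤
      (E.sigma fun e => e.divisors).card := by
    apply card_le_card_of_injOn (fun x => (⟨W ^ 2 * (x.2 * (2 * (k₀ + x.1) + x.2)), x.2⟩ : (_ : ℕ) × ℕ))
    · intro x hx
      have hx' : x ∈ ((range R) ×ˢ (Icc 1 R)).filter fun x => W ^ 2 * (x.2 * (2 * (k₀ + x.1) + x.2)) ∈ E := by exact_mod_cast hx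
      rw [mem_filter, mem_product, mem_range, mem_Icc] at hx'
      have : (⟨W ^ 2 * (x.2 * (2 * (k₀ + x.1) + x.2)), x.2⟩ : (_ : ℕ) × ℕ) ∈ E.sigma fun e => e.divisors := by
        rw [mem_sigma]
        refine ⟨hx'.2, ?_⟩
        rw [Nat.mem_divisors]
        refine ⟨⟨W ^ 2 * (2 * (k₀ + x.1) + x.2), by ring⟩, ?_⟩
        exact Nat.one_le_iff_ne_zero.1 (hE _ hx'.2).1
      exact_mod_cast this
    · intro x hx y hy hxy
      have hx' : x ∈ ((range R) ×ˢ (Icc 1 R)).filter fun x => W ^ 2 * (x.2 * (2 * (k₀ + x.1) + x.2)) ∈ E := by exact_mod_cast hx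
      rw [mem_filter, mem_product, mem_range, mem_Icc] at hx'
      simp only [Sigma.mk.injEq, heq_eq_eq] at hxy
      obtain ⟨e1, e2⟩ := hxy
      rw [← e2] at e1
      have e3 := Nat.eq_of_mul_eq_mul_left (by positivity : 0 < W ^ 2) e1
      have e4 := Nat.eq_of_mul_eq_mul_left (by omega : 0 < x.2) e3
      have e5 : x.1 = y.1 := by omega
      exact Prod.ext e5 e2
  rw [card_sigma] at h1
  have h2 : ((((range R) ×ˢ (Icc 1 R)).filter fun x => W ^ 2 * (x.2 * (2 * (k₀ + x.1) + x.2)) ∈ E).card : ℝ) ≤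
      ∑ e ∈ E, (e.divisors.card : ℝ) := by exact_mod_cast h1
  refine h2.trans ?_
  have h3 : ∀ e ∈ E, (e.divisors.card : ℝ) ≤ t + (e.divisors.card : ℝ) ^ 2 / t := by
    intro e _
    have : t + (e.divisors.card : ℝ) ^ 2 / t - e.divisors.card = ((t - e.divisors.card / 2) ^ 2 + 3 / 4 * (e.divisors.card : ℝ) ^ 2) / t := by
      field_simp
      ring
    have : 0 ≤ ((t - e.divisors.card / 2) ^ 2 + 3 / 4 * (e.divisors.card : ℝ) ^ 2) / t := by positivity
    linarith
  refine (sum_le_sum h3).trans ?_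
  rw [sum_add_distrib, sum_const, nsmul_eq_mul, ← sum_div]
  have h4 : ∑ e ∈ E, (e.divisors.card : ℝ) ^ 2 ≤ X * (1 + Real.log X) ^ 3 := by
    refine le_trans (sum_le_sum_of_subset_of_nonneg (fun e he => mem_Icc.2 (hE e he)) fun _ _ _ => by positivity)
      (Pool.Agent.W93.LV.tau_sq X)
  have h5 := div_le_div_of_nonneg_right h4 ht.le
  linarith

end Pool.Agent.Run7.h931.SQ
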