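import Pool.Agent.Run7.h931.SQ.Two
import Pool.Agent.Run7.h931.RS.Final

/-!
# Random shifts after squares, part 4: the law
-/

set_option autoImplicit false

namespace Pool.Agent.Run7.h931.SQ

open Finset Filter
open Pool.Agent.Run7.h931.RS (Pw Fw Wd Wd_pos one_le_Pw one_le_Fw ev_log Cd wt wt_nonneg cop hit hit_sub Zs lln markov sv proj)

/-- the integers `1 ≤ n ≤ N` for which all `n² + s j` are composite -/
def cs {m : ℕ} (N : ℕ) (s : Fin m → ℕ) : Finset ℕ := (Icc 1 N).filter fun n => ∀ j, ¬ (n ^ 2 + s j).Prime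

lemma cs_sv {m : ℕ} (N : ℕ) (s : Fin m → ℕ) : (sv ((Icc 1 N).image fun n => n ^ 2) s).card = (cs N s).card := by
  unfold sv cs
  rw [filter_image, card_image_of_injective _ (Nat.pow_left_injective (by norm_num))]

lemma Zs_le2 {m : ℕ} (w q : ℕ) (b : Fin m → ℕ) (n : ℕ → ℕ) (R : ℕ) (L δ K : ℝ)
    (hc : ∀ k < R, ∀ j, Cd w L δ K q (b j) (n k ^ 2)) (hinj : ∀ k k', n k = n k' → k = k') (N : ℕ)
    (hnk : ∀ k < R, 1 ≤ n k ∧ n k ≤ N) (s : Fin m → ℕ) (hs : s ∈ Fintype.piFinset fun j => Ioc (b j) (b j + q)) :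
    Zs w q b (fun k => n k ^ 2) R s ≤ ((cs N s).card : ℝ) *
      Real.exp ((1 + 3 * δ) * (Pw w / L) * (univ.filter fun j => s j ∈ cop (Wd w) (b j) q).card) := by
  classical
  rw [Fintype.mem_piFinset] at hs
  obtain ⟨β, hβ⟩ : ∃ β, β = (1 + 3 * δ) * (Pw w / L) := ⟨_, rfl⟩
  obtain ⟨c, hcc⟩ : ∃ c : ℕ, c = (univ.filter fun j => s j ∈ cop (Wd w) (b j) q).card := ⟨_, rfl⟩
  rw [← hβ, ← hcc]
  have h1 : ∀ k ∈ range R, ∏ j, wt (cop (Wd w) (b j) q) (hit (b j) q (n k ^ 2)) (s j) ≤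
      if n k ∈ cs N s then Real.exp (β * c) else 0 := by
    intro k hk
    rw [mem_range] at hk
    by_cases hsv : n k ∈ cs N s
    · rw [if_pos hsv]
      calc ∏ j, wt (cop (Wd w) (b j) q) (hit (b j) q (n k ^ 2)) (s j) ≤
          ∏ j : Fin m, (if s j ∈ cop (Wd w) (b j) q then Real.exp β else 1) := by
            apply Finset.prod_le_prod
            · exact fun j _ => wt_nonneg _ _ (hit_sub w (b j) q (n k ^ 2) (hc k hk j).hn (hc k hk j).hWn) _
            · intro j _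
              rw [hβ]
              exact (hc k hk j).wt_le (s j)
        _ = _ := by
            rw [prod_ite, prod_const, prod_const_one, mul_one, ← Real.exp_nat_mul, hcc]
            congr 1
            ring
    · rw [if_neg hsv]
      unfold cs at hsv
      rw [mem_filter, not_and_or] at hsv
      rcases hsv with hsv | hsv
      · exact absurd (mem_Icc.2 (hnk k hk)) hsv
      · push Not at hsv
        obtain ⟨j, hj⟩ := hsv
        apply le_of_eq
        apply prod_eq_zero (mem_univ j)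
        unfold wt
        rw [if_pos]
        unfold hit
        rw [mem_filter]
        exact ⟨hs j, hj⟩
  unfold Zs
  refine (sum_le_sum h1).trans ?_
  rw [← sum_filter, sum_const, nsmul_eq_mul]
  apply mul_le_mul_of_nonneg_right _ (Real.exp_pos _).le
  have h2 : ((range R).filter fun k => n k ∈ cs N s).card ≤ (cs N s).card := by
    apply card_le_card_of_injOn n
    · intro k hk
      have hk' : k ∈ (range R).filter fun k => n k ∈ cs N s := by exact_mod_cast hk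
      exact_mod_cast (mem_filter.1 hk').2
    · intro k _ k' _ hkk
      exact hinj k k' hkk
  exact_mod_cast h2

/-- the hypotheses on the windows at the scale of the squares -/
lemma scale {N q a : ℕ} (hN : 3 ≤ N) (hq : (N : ℝ) ^ 2 ≤ q * Real.log N ^ a) :
    ((N ^ 2 : ℕ) : ℝ) ≤ q * Real.log ((N ^ 2 : ℕ) : ℝ) ^ a ∧ Real.log ((N ^ 2 : ℕ) : ℝ) = 2 * Real.log N := by
  have hN0 : (3 : ℝ) ≤ N := by exact_mod_cast hN
  have hl : 0 ≤ Real.log (N : ℝ) := Real.log_nonneg (by linarith)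
  have h1 : Real.log ((N ^ 2 : ℕ) : ℝ) = 2 * Real.log N := by
    push_cast
    rw [Real.log_pow]
    norm_num
  refine ⟨?_, h1⟩
  rw [h1]
  push_cast
  refine hq.trans (mul_le_mul_of_nonneg_left ?_ (Nat.cast_nonneg q))
  exact pow_le_pow_left₀ hl (by linarith) a

/-- the first moment at the scale of the squares -/
theorem first_sq (T a : ℕ) : ∃ K : ℝ, 0 ≤ K ∧ ∀ᶠ N : ℕ in atTop, ∀ q : ℕ, (N : ℝ) ^ 2 ≤ q * Real.log N ^ a → q ≤ N ^ 2 →
    ∀ (m : ℕ) (b : Fin m → ℕ), (∀ j, b j ≤ T * N ^ 2) →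
      ∑ s ∈ Fintype.piFinset (fun j => Ioc (b j) (b j + q)), ((cs N s).card : ℝ) ≤
        N * ((q : ℝ) ^ m * Real.exp (K * (m / (2 * Real.log N) ^ 2) - m / (2 * Real.log N))) := by
  classical
  obtain ⟨K, hK, h1⟩ := markov T a
  refine ⟨K, hK, ?_⟩
  have hsq : Tendsto (fun N : ℕ => N ^ 2) atTop atTop := tendsto_pow_atTop two_ne_zero
  filter_upwards [hsq.eventually h1, eventually_ge_atTop 3] with N g1 g2 q hq hqN m b hb
  obtain ⟨hq', hlog⟩ := scale g2 hq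
  have h2 := g1 q hq' hqN m b hb ((Icc 1 N).image fun n => n ^ 2) (by
    intro n hn
    rw [mem_image] at hn
    obtain ⟨k, hk, rfl⟩ := hn
    exact Nat.pow_le_pow_left (mem_Icc.1 hk).2 2)
  rw [card_image_of_injective _ (Nat.pow_left_injective (by norm_num)), Nat.card_Icc, Nat.add_sub_cancel, hlog] at h2
  rw [sum_congr rfl fun s _ => by rw [cs_sv N s]] at h2
  exact h2

/-- more than `(2 + ε) log² N` shifts -/
theorem one_q (T a : ℕ) (ε : ℝ) (hε : 0 < ε) : ∀ᶠ N : ℕ in atTop, ∀ q : ℕ, (N : ℝ) ^ 2 ≤ q * Real.log N ^ a → q ≤ N ^ 2 →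
    ∀ (m : ℕ) (b : Fin m → ℕ), (∀ j, b j ≤ T * N ^ 2) → (2 + ε) * Real.log N ^ 2 ≤ m →
      (((Fintype.piFinset fun j => Ioc (b j) (b j + q)).filter fun s => (cs N s).Nonempty).card : ℝ) ≤
        (N : ℝ) ^ (-(ε / 4)) * (q : ℝ) ^ m := by
  classical
  obtain ⟨K, hK, h1⟩ := first_sq T a
  filter_upwards [h1, ev_log ((2 + ε) * K / ε + 1), eventually_ge_atTop 3] with N g1 g2 g3 q hq hqN m b hb hm
  have k1 := g1 q hq hqN m b hb
  obtain ⟨ℓ, hℓ⟩ : ∃ ℓ, ℓ = Real.log (N : ℝ) := ⟨_, rfl⟩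
  have hN0 : (0 : ℝ) < N := by exact_mod_cast (by omega : 0 < N)
  rw [← hℓ] at g2 hm k1
  have hKL : (2 + ε) * K ≤ ε * ℓ := by
    have : (2 + ε) * K / ε ≤ ℓ := by linarith
    rw [div_le_iff₀ hε] at this
    linarith
  have hℓ1 : 1 ≤ ℓ := by
    have : 0 ≤ (2 + ε) * K / ε := by positivity
    linarith
  have hℓ0 : 0 < ℓ := by linarith
  have k2 : (((Fintype.piFinset fun j => Ioc (b j) (b j + q)).filter fun s => (cs N s).Nonempty).card : ℝ) ≤
      ∑ s ∈ Fintype.piFinset (fun j => Ioc (b j) (b j + q)), ((cs N s).card : ℝ) := by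
    rw [card_filter]
    push_cast
    apply sum_le_sum
    intro s _
    split_ifs with h
    · exact_mod_cast h.card_pos
    · exact Nat.cast_nonneg _
  refine k2.trans (k1.trans ?_)
  rw [Real.rpow_def_of_pos hN0, ← hℓ]
  have k3 : (N : ℝ) = Real.exp ℓ := by rw [hℓ, Real.exp_log hN0]
  have k4 : (N : ℝ) * ((q : ℝ) ^ m * Real.exp (K * (m / (2 * ℓ) ^ 2) - m / (2 * ℓ))) =
      Real.exp (ℓ + (K * (m / (2 * ℓ) ^ 2) - m / (2 * ℓ))) * (q : ℝ) ^ m := by
    rw [Real.exp_add, ← k3]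
    ring
  rw [k4]
  apply mul_le_mul_of_nonneg_right _ (by positivity)
  apply Real.exp_le_exp.2
  have k5 : K * (m / (2 * ℓ) ^ 2) - m / (2 * ℓ) = -((m / ℓ ^ 2) * ((2 * ℓ - K) / 4)) := by field_simp; ring
  rw [k5]
  have k6 : 2 + ε ≤ m / ℓ ^ 2 := by rwa [le_div_iff₀ (by positivity)]
  have hKL' : K ≤ ℓ := by nlinarith
  have k7 : (2 + ε) * ((2 * ℓ - K) / 4) ≤ (m / ℓ ^ 2) * ((2 * ℓ - K) / 4) := mul_le_mul_of_nonneg_right k6 (by linarith)
  nlinarith

/-- fewer than `(2 - ε) log² N` shifts -/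
theorem two_q (T a : ℕ) (ε : ℝ) (hε : 0 < ε) : ∀ᶠ N : ℕ in atTop, ∀ q : ℕ, (N : ℝ) ^ 2 ≤ q * Real.log N ^ a → q ≤ N ^ 2 →
    ∀ (m : ℕ) (b : Fin m → ℕ), (∀ j, b j ≤ T * N ^ 2) → (m : ℝ) ≤ (2 - ε) * Real.log N ^ 2 →
      (((Fintype.piFinset fun j => Ioc (b j) (b j + q)).filter fun s =>
        ¬ ((N : ℝ) ^ (1 - m / (2 * Real.log N ^ 2) - ε) ≤ (cs N s).card ∧
          ((cs N s).card : ℝ) ≤ (N : ℝ) ^ (1 - m / (2 * Real.log N ^ 2) + ε))).card : ℝ) ≤ ε * (q : ℝ) ^ m := by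
  classical
  rcases lt_or_ge 2 ε with hε1 | hε1
  · filter_upwards [ev_log 1] with N g1 q hq hqN m b hb hm
    exfalso
    have h1 : (0 : ℝ) ≤ m := Nat.cast_nonneg m
    have h2 : 0 < Real.log (N : ℝ) ^ 2 := by positivity
    nlinarith
  obtain ⟨η, hη⟩ : ∃ η, η = ε / 6400 := ⟨_, rfl⟩
  have hη0 : 0 < η := by rw [hη]; positivity
  have hη1 : η ≤ 1 / 3200 := by rw [hη]; linarith
  obtain ⟨w, hw3, hw⟩ := sharp2 η hη0
  have hsh := hw w le_rfl
  have hP := one_le_Pw w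
  obtain ⟨δ, hδ⟩ : ∃ δ, δ = η / (8 * Pw w) := ⟨_, rfl⟩
  have hδ0 : 0 < δ := by rw [hδ]; positivity
  have hδη : δ ≤ η / 8 := by
    rw [hδ]
    apply div_le_div_of_nonneg_left hη0.le (by norm_num) (by linarith)
  have hδP : 4 * δ * Pw w = η / 2 := by rw [hδ]; field_simp; norm_num
  obtain ⟨K, hK, h1⟩ := two_sq T a w (ε / 2) δ η (by linarith) hδ0 (by linarith) (by linarith) hη0 (by linarith) hsh (by
    rw [hδP]
    have := Real.abs_exp_sub_one_sub_id_le (x := η / 2) (by rw [abs_of_pos (by positivity)]; linarith)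
    have := (abs_le.1 this).2
    nlinarith)
  obtain ⟨K', hK', h2⟩ := first_sq T a
  have hWpos := Wd_pos w
  have hWr : (0 : ℝ) < Wd w := by exact_mod_cast hWpos
  filter_upwards [h1, h2, eventually_ge_atTop 3, ev_log ((Real.log (32 * Wd w) + 2 * Pw w) / (ε / 2)),
    ev_log (Real.log (4 / ε) / (δ ^ 2 / (4 * Pw w))), ev_log ((K' + Real.log (4 / ε)) / ε), ev_log 1] with
    N g1 g2 g3 g4 g5 g6 g7 q hq hqN m b hb hm
  obtain ⟨hq', hlog⟩ := scale g3 hq
  obtain ⟨n, R, a1, a2, a3, a4, a5⟩ := g1 q hq' hqN m b hb (by rw [hlog]; linarith)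
  have b1 := g2 q hq hqN m b hb
  rw [hlog] at a4
  obtain ⟨ℓ, hℓ⟩ : ∃ ℓ, ℓ = Real.log (N : ℝ) := ⟨_, rfl⟩
  rw [← hℓ] at g4 g5 g6 g7 hm a4 b1 ⊢
  have hN0 : (0 : ℝ) < N := by exact_mod_cast (by omega : 0 < N)
  have hℓ0 : 0 < ℓ := by linarith
  have hNℓ : (N : ℝ) = Real.exp ℓ := by rw [hℓ, Real.exp_log hN0]
  have hm0 : (0 : ℝ) ≤ m := Nat.cast_nonneg m
  have hm2 : (m : ℝ) / (2 * ℓ ^ 2) ≤ 1 := by
    rw [div_le_one (by positivity)]
    have : 0 ≤ ε * ℓ ^ 2 := by positivity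
    linarith
  obtain ⟨Ω, hΩ⟩ : ∃ Ω, Ω = Fintype.piFinset fun j => Ioc (b j) (b j + q) := ⟨_, rfl⟩
  obtain ⟨ρ, hρ⟩ : ∃ ρ, ρ = (1 + δ) / Pw w := ⟨_, rfl⟩
  have hρ0 : 0 < ρ := by rw [hρ]; positivity
  rw [← hΩ] at a5 b1 ⊢
  -- the three bad sets
  obtain ⟨B1, hB1⟩ : ∃ B1, B1 = Ω.filter fun s => 1 / 2 * R < |Zs w q b (fun k => n k ^ 2) R s - R| := ⟨_, rfl⟩
  obtain ⟨B2, hB2⟩ : ∃ B2, B2 = Ω.filter fun s => ℓ ≤ m ∧ (1 + δ) * ρ * m <
    ((univ.filter fun j => s j ∈ cop (Wd w) (b j) q).card : ℝ) := ⟨_, rfl⟩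
  obtain ⟨B3, hB3⟩ : ∃ B3, B3 = Ω.filter fun s => (N : ℝ) ^ (1 - m / (2 * ℓ ^ 2) + ε) < ((cs N s).card : ℝ) := ⟨_, rfl⟩
  rw [← hB1] at a5
  have hqm : 0 ≤ (q : ℝ) ^ m := by positivity
  have c1 : (B1.card : ℝ) ≤ ε / 4 * (q : ℝ) ^ m := by
    have : 0 ≤ ε * (q : ℝ) ^ m := by positivity
    rw [hη] at a5
    nlinarith
  have c2 : (B2.card : ℝ) ≤ ε / 4 * (q : ℝ) ^ m := by
    rcases lt_or_ge (m : ℝ) ℓ with hmL | hmL
    · have : B2 = ∅ := by
        rw [hB2, filter_eq_empty_iff]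
        intro s _ h
        linarith [h.1]
      rw [this, card_empty, Nat.cast_zero]
      positivity
    · have hR0 : 0 < R := by
        have : (0 : ℝ) < R := lt_of_lt_of_le (by positivity) a1
        exact_mod_cast this
      have d1 := lln (fun j => Ioc (b j) (b j + q)) (fun j => cop (Wd w) (b j) q) (fun j => filter_subset _ _) ρ δ hδ0 (by linarith)
        (fun j => by
          have := (a4 0 hR0 j).ucard.2.1
          rw [Nat.card_Ioc, Nat.add_sub_cancel_left, hρ]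
          refine this.trans ?_
          rw [div_mul_eq_mul_div, mul_div_assoc]
          apply mul_le_mul_of_nonneg_right _ (by positivity)
          linarith)
      rw [prod_congr rfl fun j _ => by rw [Nat.card_Ioc, Nat.add_sub_cancel_left], prod_const, card_univ, Fintype.card_fin, ← hΩ] at d1
      have d2 : B2 ⊆ Ω.filter fun s => (1 + δ) * ρ * m < ((univ.filter fun j => s j ∈ cop (Wd w) (b j) q).card : ℝ) := by
        rw [hB2]
        intro s hs
        rw [mem_filter] at hs ⊢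
        exact ⟨hs.1, hs.2.2⟩
      have d3 : (B2.card : ℝ) ≤ Real.exp (-(δ ^ 2 / 4 * ρ * m)) * (q : ℝ) ^ m := le_trans (by exact_mod_cast card_le_card d2) d1
      refine d3.trans (mul_le_mul_of_nonneg_right ?_ (by positivity))
      have d4 : Real.log (4 / ε) ≤ δ ^ 2 / 4 * ρ * m := by
        rw [div_le_iff₀ (by positivity)] at g5
        refine g5.trans ?_
        have f1 : δ ^ 2 / (4 * Pw w) ≤ δ ^ 2 / 4 * ρ := by
          rw [hρ]
          have : δ ^ 2 / 4 * ((1 + δ) / Pw w) = (1 + δ) * (δ ^ 2 / (4 * Pw w)) := by field_simp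
          rw [this]
          have : 0 ≤ δ ^ 2 / (4 * Pw w) := by positivity
          nlinarith
        calc ℓ * (δ ^ 2 / (4 * Pw w)) ≤ m * (δ ^ 2 / 4 * ρ) := mul_le_mul hmL f1 (by positivity) hm0
          _ = _ := by ring
      rw [Real.exp_neg, ← one_div, div_le_iff₀ (Real.exp_pos _)]
      have d5 := Real.exp_le_exp.2 d4
      rw [Real.exp_log (by positivity)] at d5
      calc (1 : ℝ) = ε / 4 * (4 / ε) := by field_simp
        _ ≤ _ := mul_le_mul_of_nonneg_left d5 (by positivity)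
  have c3 : (B3.card : ℝ) ≤ ε / 4 * (q : ℝ) ^ m := by
    have d1 : (B3.card : ℝ) * (N : ℝ) ^ (1 - m / (2 * ℓ ^ 2) + ε) ≤ ∑ s ∈ Ω, ((cs N s).card : ℝ) := by
      rw [← nsmul_eq_mul, ← sum_const, hB3]
      refine le_trans (sum_le_sum (fun s hs => ?_)) (sum_le_sum_of_subset_of_nonneg (filter_subset _ _) fun s _ _ => Nat.cast_nonneg _)
      exact (mem_filter.1 hs).2.le
    have d2 := d1.trans b1
    rw [Real.rpow_def_of_pos hN0, ← hℓ] at d2
    have d3 : (N : ℝ) * ((q : ℝ) ^ m * Real.exp (K' * (m / (2 * ℓ) ^ 2) - m / (2 * ℓ))) =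
        (Real.exp (K' * (m / (2 * ℓ) ^ 2) - ε * ℓ) * (q : ℝ) ^ m) * Real.exp (ℓ * (1 - m / (2 * ℓ ^ 2) + ε)) := by
      have : K' * (m / (2 * ℓ) ^ 2) - ε * ℓ + ℓ * (1 - m / (2 * ℓ ^ 2) + ε) = ℓ + (K' * (m / (2 * ℓ) ^ 2) - m / (2 * ℓ)) := by
        field_simp
        ring
      calc (N : ℝ) * ((q : ℝ) ^ m * Real.exp (K' * (m / (2 * ℓ) ^ 2) - m / (2 * ℓ))) =
          (q : ℝ) ^ m * Real.exp (ℓ + (K' * (m / (2 * ℓ) ^ 2) - m / (2 * ℓ))) := by rw [Real.exp_add, ← hNℓ]; ring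
        _ = (q : ℝ) ^ m * Real.exp (K' * (m / (2 * ℓ) ^ 2) - ε * ℓ + ℓ * (1 - m / (2 * ℓ ^ 2) + ε)) := by rw [this]
        _ = _ := by rw [Real.exp_add]; ring
    rw [d3] at d2
    have d4 := le_of_mul_le_mul_right d2 (Real.exp_pos _)
    refine d4.trans (mul_le_mul_of_nonneg_right ?_ (by positivity))
    rw [div_le_iff₀ hε] at g6
    have d5 : K' * (m / (2 * ℓ) ^ 2) ≤ K' := by
      apply mul_le_of_le_one_right hK'
      have : (m : ℝ) / (2 * ℓ) ^ 2 = (m / (2 * ℓ ^ 2)) / 2 := by field_simp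
      rw [this]
      have : 0 ≤ (m : ℝ) / (2 * ℓ ^ 2) := by positivity
      linarith
    have d6 : Real.exp (K' * (m / (2 * ℓ) ^ 2) - ε * ℓ) ≤ Real.exp (-Real.log (4 / ε)) := Real.exp_le_exp.2 (by linarith)
    rw [Real.exp_neg, Real.exp_log (by positivity), inv_div] at d6
    exact d6
  -- every other vector of shifts is good
  have c4 : (Ω.filter fun s => ¬ ((N : ℝ) ^ (1 - m / (2 * ℓ ^ 2) - ε) ≤ (cs N s).card ∧
      ((cs N s).card : ℝ) ≤ (N : ℝ) ^ (1 - m / (2 * ℓ ^ 2) + ε))) ⊆ B1 ∪ (B2 ∪ B3) := by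
    intro s hs
    rw [mem_filter] at hs
    obtain ⟨hsΩ, hs⟩ := hs
    by_contra hnot
    rw [mem_union, mem_union, not_or, not_or] at hnot
    obtain ⟨n1, n2, n3⟩ := hnot
    rw [hB1, mem_filter, not_and, not_lt] at n1
    rw [hB2, mem_filter, not_and, not_and, not_lt] at n2
    rw [hB3, mem_filter, not_and, not_lt] at n3
    apply hs
    refine ⟨?_, n3 hsΩ⟩
    have n1' := (abs_le.1 (n1 hsΩ)).1
    obtain ⟨c, hc⟩ : ∃ c : ℝ, c = ((univ.filter fun j => s j ∈ cop (Wd w) (b j) q).card : ℝ) := ⟨_, rfl⟩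
    have f1 := Zs_le2 w q b n R (2 * ℓ) δ K a4 a3 N a2 s (by rw [← hΩ]; exact hsΩ)
    rw [← hc] at f1 n2
    have hc0 : 0 ≤ c := by rw [hc]; exact Nat.cast_nonneg _
    have f2 : (1 + 3 * δ) * (Pw w / (2 * ℓ)) * c ≤ 2 * Pw w + m / (2 * ℓ) + ε / 2 * ℓ := by
      rcases lt_or_ge (m : ℝ) ℓ with hmL | hmL
      · have e1 : c ≤ m := by
          rw [hc]
          exact_mod_cast (card_filter_le _ _).trans (by rw [card_univ, Fintype.card_fin])
        have e2 : (1 + 3 * δ) * (Pw w / (2 * ℓ)) * c ≤ (1 + 3 * δ) * (Pw w / (2 * ℓ)) * ℓ :=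
          mul_le_mul_of_nonneg_left (by linarith) (by positivity)
        have e3 : (1 + 3 * δ) * (Pw w / (2 * ℓ)) * ℓ = (1 + 3 * δ) * Pw w / 2 := by field_simp
        have e4 : (1 + 3 * δ) * Pw w ≤ 2 * Pw w := mul_le_mul_of_nonneg_right (by linarith) (by linarith)
        have e5 : 0 ≤ m / (2 * ℓ) := by positivity
        have e6 : 0 ≤ ε / 2 * ℓ := by positivity
        linarith
      · have e1 := n2 hsΩ hmL
        have e2 : (1 + 3 * δ) * (Pw w / (2 * ℓ)) * c ≤ (1 + 3 * δ) * (Pw w / (2 * ℓ)) * ((1 + δ) * ρ * m) :=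
          mul_le_mul_of_nonneg_left e1 (by positivity)
        have e3 : (1 + 3 * δ) * (Pw w / (2 * ℓ)) * ((1 + δ) * ρ * m) = ((1 + 3 * δ) * (1 + δ) ^ 2) * (m / (2 * ℓ)) := by
          rw [hρ]
          field_simp
        have e4 : (1 + 3 * δ) * (1 + δ) ^ 2 ≤ 1 + 8 * δ := by nlinarith [mul_nonneg hδ0.le hδ0.le, mul_nonneg (mul_nonneg hδ0.le hδ0.le) hδ0.le]
        have e5 : ((1 + 3 * δ) * (1 + δ) ^ 2) * (m / (2 * ℓ)) ≤ (1 + 8 * δ) * (m / (2 * ℓ)) := mul_le_mul_of_nonneg_right e4 (by positivity)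
        have e6 : m / (2 * ℓ) ≤ ℓ := by
          have : m / (2 * ℓ) = (m / (2 * ℓ ^ 2)) * ℓ := by field_simp
          rw [this]
          exact mul_le_of_le_one_left hℓ0.le hm2
        have e7 : 8 * δ * (m / (2 * ℓ)) ≤ ε / 2 * ℓ := mul_le_mul (by linarith) e6 (by positivity) (by positivity)
        have e8 : 0 ≤ 2 * Pw w := by linarith
        linarith
    have f3 := Real.exp_le_exp.2 f2
    have f4 : (0 : ℝ) ≤ (cs N s).card := Nat.cast_nonneg _
    have f5 : (N : ℝ) / (32 * Wd w) ≤ ((cs N s).card : ℝ) * Real.exp (2 * Pw w + m / (2 * ℓ) + ε / 2 * ℓ) := by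
      have e1 := f1.trans (mul_le_mul_of_nonneg_left f3 f4)
      have e2 : (N : ℝ) / (32 * Wd w) = (N / (16 * Wd w)) / 2 := by field_simp; norm_num
      linarith
    rw [Real.rpow_def_of_pos hN0, ← hℓ]
    rw [div_le_iff₀ (by positivity)] at g4
    have f6 : ℓ * (1 - m / (2 * ℓ ^ 2) - ε) ≤ ℓ - Real.log (32 * Wd w) - (2 * Pw w + m / (2 * ℓ) + ε / 2 * ℓ) := by
      have : ℓ * (1 - m / (2 * ℓ ^ 2) - ε) = ℓ - m / (2 * ℓ) - ε * ℓ := by field_simp
      rw [this]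
      linarith
    refine (Real.exp_le_exp.2 f6).trans ?_
    rw [Real.exp_sub, Real.exp_sub, Real.exp_log (by positivity), ← hNℓ, div_le_iff₀ (Real.exp_pos _)]
    exact f5
  have c5 : (((Ω.filter fun s => ¬ ((N : ℝ) ^ (1 - m / (2 * ℓ ^ 2) - ε) ≤ (cs N s).card ∧
      ((cs N s).card : ℝ) ≤ (N : ℝ) ^ (1 - m / (2 * ℓ ^ 2) + ε)))).card : ℝ) ≤ B1.card + (B2.card + B3.card) := by
    have := (card_le_card c4).trans ((card_union_le B1 (B2 ∪ B3)).trans (Nat.add_le_add_left (card_union_le B2 B3) _))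
    exact_mod_cast this
  refine c5.trans ?_
  have : 0 ≤ ε / 4 * (q : ℝ) ^ m := by positivity
  linarith

/-- for some `1 ≤ n ≤ N` none of `n² + s 0, ..., n² + s (k - 1)` is a prime -/
def FreeQ {m : ℕ} (N k : ℕ) (s : Fin m → ℕ) : Prop := ∃ n, 1 ≤ n ∧ n ≤ N ∧ ∀ j : Fin m, (j : ℕ) < k → ¬ (n ^ 2 + s j).Prime

lemma FreeQ.mono {m : ℕ} {N k k' : ℕ} {s : Fin m → ℕ} (h : FreeQ N k s) (hk : k' ≤ k) : FreeQ N k' s := by
  obtain ⟨n, h1, h2, h3⟩ := h
  exact ⟨n, h1, h2, fun j hj => h3 j (by omega)⟩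

open Classical in
/-- the longest run of composite values -/
noncomputable def runQ {m : ℕ} (N : ℕ) (s : Fin m → ℕ) : ℕ := Nat.findGreatest (fun k => FreeQ N k s) m

/-- the law for almost all shift vectors -/
theorem law_q (T a : ℕ) (ε : ℝ) (hε : 0 < ε) : ∀ᶠ N : ℕ in atTop, ∀ q : ℕ, (N : ℝ) ^ 2 ≤ q * Real.log N ^ a → q ≤ N ^ 2 →
    ∀ (m : ℕ) (b : Fin m → ℕ), (∀ j, b j ≤ T * N ^ 2) → (2 + ε) * Real.log N ^ 2 ≤ m →
      (((Fintype.piFinset fun j => Ioc (b j) (b j + q)).filter fun s =>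
        ε < |(runQ N s : ℝ) / Real.log N ^ 2 - 2|).card : ℝ) ≤ ε * (q : ℝ) ^ m := by
  classical
  filter_upwards [one_q T a ε hε, two_q T a (ε / 4) (by positivity), ev_log (Real.log (2 / ε) / (ε / 4)), ev_log 1,
    ev_log (2 / ε), eventually_ge_atTop 3] with N g1 g2 g3 g4 g5 g6 q hq hqN m b hb hm
  obtain ⟨L, hL⟩ : ∃ L, L = Real.log (N : ℝ) := ⟨_, rfl⟩
  have hN0 : (0 : ℝ) < N := by exact_mod_cast (by omega : 0 < N)
  have hN1 : (1 : ℝ) ≤ N := by exact_mod_cast (by omega : 1 ≤ N)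
  have k1 := g1 q hq hqN
  have k2 := g2 q hq hqN
  rw [← hL] at g3 g4 g5 hm k1 k2 ⊢
  have hL0 : 0 < L := by linarith
  have hLL : 2 ≤ ε * L ^ 2 := by
    rw [div_le_iff₀ hε] at g5
    nlinarith
  obtain ⟨Ω, hΩ⟩ : ∃ Ω, Ω = Fintype.piFinset fun j => Ioc (b j) (b j + q) := ⟨_, rfl⟩
  rw [← hΩ]
  obtain ⟨B1, hB1⟩ : ∃ B1, B1 = Ω.filter fun s => (2 + ε) * L ^ 2 < (runQ N s : ℝ) := ⟨_, rfl⟩
  obtain ⟨B2, hB2⟩ : ∃ B2, B2 = Ω.filter fun s => (runQ N s : ℝ) < (2 - ε) * L ^ 2 := ⟨_, rfl⟩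
  have c1 : (B1.card : ℝ) ≤ ε / 2 * (q : ℝ) ^ m := by
    obtain ⟨k, hk⟩ : ∃ k, k = ⌈(2 + ε) * L ^ 2⌉₊ := ⟨_, rfl⟩
    have hkm : k ≤ m := by rw [hk]; exact Nat.ceil_le.2 hm
    obtain ⟨r, rfl⟩ := Nat.exists_eq_add_of_le hkm
    have d1 := k1 k (fun j => b (Fin.castAdd r j)) (fun j => hb _) (by rw [hk]; exact Nat.le_ceil _)
    have d2 := proj q k r b B1 ((Fintype.piFinset fun j : Fin k => Ioc (b (Fin.castAdd r j)) (b (Fin.castAdd r j) + q)).filter
      fun s => (cs N s).Nonempty) (by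
        intro s hs
        rw [hB1, mem_filter, hΩ, Fintype.mem_piFinset] at hs
        refine ⟨hs.1, ?_⟩
        rw [mem_filter, Fintype.mem_piFinset]
        refine ⟨fun j => hs.1 _, ?_⟩
        have e1 : k ≤ runQ N s := hk.le.trans (Nat.ceil_le.2 hs.2.le)
        have e2 : runQ N s ≠ 0 := by
          intro h0
          rw [h0, Nat.cast_zero] at hs
          have : 0 < (2 + ε) * L ^ 2 := by positivity
          linarith [hs.2]
        have e3 : FreeQ N (runQ N s) s := Nat.findGreatest_of_ne_zero rfl e2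
        obtain ⟨n, h1, h2, h3⟩ := e3.mono e1
        refine ⟨n, ?_⟩
        unfold cs
        rw [mem_filter, mem_Icc]
        exact ⟨⟨h1, h2⟩, fun j => h3 _ (by simp)⟩)
    refine d2.trans ((mul_le_mul_of_nonneg_right d1 (by positivity)).trans ?_)
    rw [mul_assoc, ← pow_add]
    apply mul_le_mul_of_nonneg_right _ (by positivity)
    rw [Real.rpow_def_of_pos hN0, ← hL]
    rw [div_le_iff₀ (by positivity)] at g3
    have e1 : Real.exp (L * (-(ε / 4))) ≤ Real.exp (-Real.log (2 / ε)) := Real.exp_le_exp.2 (by linarith)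
    rwa [Real.exp_neg, Real.exp_log (by positivity), inv_div] at e1
  have c2 : (B2.card : ℝ) ≤ ε / 2 * (q : ℝ) ^ m := by
    rcases lt_or_ge ε 2 with hε1 | hε1
    · obtain ⟨k, hk⟩ : ∃ k, k = ⌊(2 - ε / 2) * L ^ 2⌋₊ := ⟨_, rfl⟩
      have hk1 : (k : ℝ) ≤ (2 - ε / 2) * L ^ 2 := by
        rw [hk]
        apply Nat.floor_le
        apply mul_nonneg (by linarith) (by positivity)
      have hk2 : (2 - ε) * L ^ 2 ≤ k := by
        have : (2 - ε / 2) * L ^ 2 < (k : ℝ) + 1 := by rw [hk]; exact Nat.lt_floor_add_one _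
        nlinarith
      have hkm : k ≤ m := by
        have : (k : ℝ) ≤ m := by nlinarith
        exact_mod_cast this
      obtain ⟨r, rfl⟩ := Nat.exists_eq_add_of_le hkm
      have d1 := k2 k (fun j => b (Fin.castAdd r j)) (fun j => hb _) (by
        refine hk1.trans (mul_le_mul_of_nonneg_right (by linarith) (by positivity)))
      have d2 := proj q k r b B2 ((Fintype.piFinset fun j : Fin k => Ioc (b (Fin.castAdd r j)) (b (Fin.castAdd r j) + q)).filter
        fun s => ¬ ((N : ℝ) ^ (1 - k / (2 * L ^ 2) - ε / 4) ≤ (cs N s).card ∧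
          ((cs N s).card : ℝ) ≤ (N : ℝ) ^ (1 - k / (2 * L ^ 2) + ε / 4))) (by
          intro s hs
          rw [hB2, mem_filter, hΩ, Fintype.mem_piFinset] at hs
          refine ⟨hs.1, ?_⟩
          rw [mem_filter, Fintype.mem_piFinset]
          refine ⟨fun j => hs.1 _, ?_⟩
          rintro ⟨h1, _⟩
          have e1 : (0 : ℝ) ≤ 1 - k / (2 * L ^ 2) - ε / 4 := by
            have : (k : ℝ) / (2 * L ^ 2) ≤ 1 - ε / 4 := by
              rw [div_le_iff₀ (by positivity)]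
              linarith
            linarith
          have e2 : (1 : ℝ) ≤ (cs N fun j : Fin k => s (Fin.castAdd r j)).card := (Real.one_le_rpow hN1 e1).trans h1
          have e3 : 0 < (cs N fun j : Fin k => s (Fin.castAdd r j)).card := by exact_mod_cast e2
          obtain ⟨n, hn⟩ := card_pos.1 e3
          unfold cs at hn
          rw [mem_filter, mem_Icc] at hn
          have e4 : FreeQ N k s := ⟨n, hn.1.1, hn.1.2, fun j hj => by
            have := hn.2 ⟨j, hj⟩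
            simpa using this⟩
          have e5 : k ≤ runQ N s := Nat.le_findGreatest (Nat.le_add_right _ _) e4
          have e6 : (k : ℝ) ≤ runQ N s := by exact_mod_cast e5
          linarith [hs.2])
      refine d2.trans ((mul_le_mul_of_nonneg_right d1 (by positivity)).trans ?_)
      rw [mul_assoc, ← pow_add]
      apply mul_le_mul_of_nonneg_right _ (by positivity)
      linarith
    · have : B2 = ∅ := by
        rw [hB2, filter_eq_empty_iff]
        intro s _ h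
        have h1 : (0 : ℝ) ≤ runQ N s := Nat.cast_nonneg _
        have h2 : 0 < L ^ 2 := by positivity
        nlinarith
      rw [this, card_empty, Nat.cast_zero]
      positivity
  have c3 : (Ω.filter fun s => ε < |(runQ N s : ℝ) / L ^ 2 - 2|) ⊆ B1 ∪ B2 := by
    intro s hs
    rw [mem_filter] at hs
    rw [mem_union, hB1, hB2, mem_filter, mem_filter]
    have hLp : 0 < L ^ 2 := by positivity
    rcases lt_abs.1 hs.2 with h | h
    · left
      refine ⟨hs.1, ?_⟩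
      have : 2 + ε < (runQ N s : ℝ) / L ^ 2 := by linarith
      rwa [lt_div_iff₀ hLp] at this
    · right
      refine ⟨hs.1, ?_⟩
      have : (runQ N s : ℝ) / L ^ 2 < 2 - ε := by linarith
      rwa [div_lt_iff₀ hLp] at this
  have c4 : (((Ω.filter fun s => ε < |(runQ N s : ℝ) / L ^ 2 - 2|)).card : ℝ) ≤ B1.card + B2.card := by
    exact_mod_cast (card_le_card c3).trans (card_union_le B1 B2)
  linarith

end Pool.Agent.Run7.h931.SQ
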