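import Pool.Agent.Run7.h931.SQ.Uni

/-!
# Random shifts after squares, part 3: the second moment
-/

set_option autoImplicit false

namespace Pool.Agent.Run7.h931.SQ

open Finset Filter
open Pool.Agent.Run7.h931.RS (Pw Fw Wd Wd_pos one_le_Pw one_le_Fw Fw_split Cc ev_log Cd cd_ev wt wt_nonneg wt_sum cop hit hit_sub cheb
  prod_exp pairs_sum Zs moments sieve tri)

theorem secmomG {m : ℕ} (w q : ℕ) (b : Fin m → ℕ) (n : ℕ → ℕ) (d : ℕ → ℕ → ℕ) (hn : ∀ k h, n (k + h) = n k + d k h) (R : ℕ) (hR : 0 < R)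
    (L δ K : ℝ) (hc : ∀ k < R, ∀ j, Cd w L δ K q (b j) (n k)) (g : ℕ → ℕ → ℝ)
    (hg : ∀ k h, 1 ≤ h → k + h < R → ∀ j, ∑ v ∈ Ioc (b j) (b j + q), wt (cop (Wd w) (b j) q) (hit (b j) q (n k)) v *
      wt (cop (Wd w) (b j) q) (hit (b j) q (n k + d k h)) v ≤ Real.exp (g k h / L ^ 2) * (Ioc (b j) (b j + q)).card)
    (η τ : ℝ) (hτ : 0 < τ)
    (hsum : R * Real.exp (m * ((1 + 3 * δ) / L)) + 2 * ∑ k ∈ range R, ∑ h ∈ Icc 1 (R - 1 - k), Real.exp (m * (g k h / L ^ 2)) ≤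
      (1 + η) * (R : ℝ) ^ 2) :
    (((Fintype.piFinset fun j => Ioc (b j) (b j + q)).filter fun s => τ * R < |Zs w q b n R s - R|).card : ℝ) * τ ^ 2 ≤
      η * (q : ℝ) ^ m := by
  classical
  obtain ⟨e, he⟩ : ∃ e : ℕ → ℕ → ℝ, e = fun k k' => if k = k' then Real.exp (m * ((1 + 3 * δ) / L)) else
      Real.exp (m * (g (min k k') (max k k' - min k k') / L ^ 2)) := ⟨_, rfl⟩
  have h0 : ∀ k, e k k = Real.exp (m * ((1 + 3 * δ) / L)) := fun k => by rw [he]; simp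
  have h1 : ∀ k h, 1 ≤ h → e k (k + h) = Real.exp (m * (g k h / L ^ 2)) := fun k h hh => by
    rw [he]
    simp only
    rw [if_neg (by omega), min_eq_left (by omega), max_eq_right (by omega), Nat.add_sub_cancel_left]
  have h2 : ∀ k h, 1 ≤ h → e (k + h) k = Real.exp (m * (g k h / L ^ 2)) := fun k h hh => by
    rw [he]
    simp only
    rw [if_neg (by omega), min_eq_right (by omega), max_eq_left (by omega), Nat.add_sub_cancel_left]
  have hwn : ∀ k < R, ∀ j v, 0 ≤ wt (cop (Wd w) (b j) q) (hit (b j) q (n k)) v := fun k hk j v =>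
    wt_nonneg _ _ (hit_sub w (b j) q (n k) (hc k hk j).hn (hc k hk j).hWn) v
  have key := cheb (fun j => Ioc (b j) (b j + q)) (range R) (nonempty_range_iff.2 hR.ne')
    (fun k j v => wt (cop (Wd w) (b j) q) (hit (b j) q (n k)) v) (fun k hk j => by
      rw [mem_range] at hk
      have hcd := hc k hk j
      apply wt_sum
      · exact filter_subset _ _
      · exact hit_sub w (b j) q (n k) hcd.hn hcd.hWn
      · have h3 := hcd.theta
        have h4 : (0 : ℝ) < (cop (Wd w) (b j) q).card := by exact_mod_cast hcd.ucard.2.2.1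
        have h5 := hcd.hδ1
        have h6 : ((hit (b j) q (n k)).card : ℝ) < (cop (Wd w) (b j) q).card := by nlinarith
        exact_mod_cast h6) e (fun k hk k' hk' => by
      rw [mem_range] at hk hk'
      rcases lt_trichotomy k k' with hkk | hkk | hkk
      · obtain ⟨h, rfl⟩ : ∃ h, k' = k + h := ⟨k' - k, by omega⟩
        rw [h1 k h (by omega)]
        apply prod_exp
        · exact fun j => sum_nonneg fun v _ => mul_nonneg (hwn k hk j v) (hwn (k + h) hk' j v)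
        · intro j
          rw [hn]
          exact hg k h (by omega) hk' j
      · subst hkk
        rw [h0]
        apply prod_exp
        · exact fun j => sum_nonneg fun v _ => mul_nonneg (hwn k hk j v) (hwn k hk j v)
        · intro j
          exact (hc k hk j).diag
      · obtain ⟨h, rfl⟩ : ∃ h, k = k' + h := ⟨k - k', by omega⟩
        rw [h2 k' h (by omega)]
        apply prod_exp
        · exact fun j => sum_nonneg fun v _ => mul_nonneg (hwn (k' + h) hk j v) (hwn k' hk' j v)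
        · intro j
          rw [hn, sum_congr rfl fun v _ => mul_comm _ _]
          exact hg k' h (by omega) hk j) η τ hτ (by
      rw [card_range, pairs_sum R _ (fun k h => Real.exp (m * (g k h / L ^ 2))) e h0 h1 h2]
      exact hsum)
  rw [card_range] at key
  have hprod : ∏ j : Fin m, ((Ioc (b j) (b j + q)).card : ℝ) = (q : ℝ) ^ m := by
    rw [prod_congr rfl fun j _ => by rw [Nat.card_Ioc, Nat.add_sub_cancel_left], prod_const, card_univ, Fintype.card_fin]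
  rw [hprod] at key
  exact key

lemma Fw_W2 (w u : ℕ) (hu : 1 ≤ u) : Fw 0 (Wd w ^ 2 * u) ≤ Pw w * Fw w u := by
  have hW := Wd_pos w
  refine (Fw_split 0 w (Wd w ^ 2 * u) (Nat.zero_le _)).trans (le_of_eq ?_)
  congr 1
  unfold Fw
  congr 1
  ext p
  rw [mem_filter, mem_filter, Nat.primeFactors_mul (by positivity) (by omega), mem_union]
  constructor
  · rintro ⟨h1 | h1, h2⟩
    · exfalso
      have hp := Nat.prime_of_mem_primeFactors h1
      have h3 := hp.dvd_of_dvd_pow (Nat.dvd_of_mem_primeFactors h1)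
      unfold Wd at h3
      rw [hp.prime.dvd_finsetProd_iff] at h3
      obtain ⟨r, hr, hpr⟩ := h3
      rw [mem_filter, mem_Icc] at hr
      have h5 : p = r := (Nat.prime_dvd_prime_iff_eq hp hr.2).1 hpr
      omega
    · exact ⟨h1, h2⟩
  · rintro ⟨h1, h2⟩
    exact ⟨Or.inr h1, h2⟩

/-- sums over the two factors of the difference -/
lemma two_sums (R k₀ B : ℕ) (f : ℕ → ℝ) (hf : ∀ h, 0 ≤ f h) (C : ℝ) (hC : 0 ≤ C) (hfC : ∀ H, ∑ h ∈ Icc 1 H, f h ≤ C * H)
    (hB : 2 * k₀ + 3 * R ≤ B) (hR : R ≤ B) :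
    ∑ k ∈ range R, ∑ h ∈ Icc 1 (R - 1 - k), (f h + f (2 * (k₀ + k) + h)) ≤ 2 * C * R * B := by
  have h1 : ∀ k ∈ range R, ∑ h ∈ Icc 1 (R - 1 - k), (f h + f (2 * (k₀ + k) + h)) ≤ 2 * C * B := by
    intro k hk
    rw [mem_range] at hk
    rw [sum_add_distrib]
    have a1 : ∑ h ∈ Icc 1 (R - 1 - k), f h ≤ C * B := by
      refine (hfC _).trans (mul_le_mul_of_nonneg_left ?_ hC)
      exact_mod_cast (by omega : R - 1 - k ≤ B)
    have a2 : ∑ h ∈ Icc 1 (R - 1 - k), f (2 * (k₀ + k) + h) ≤ C * B := by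
      refine le_trans ?_ (hfC B)
      rw [← sum_image (f := f) (g := fun h => 2 * (k₀ + k) + h) (s := Icc 1 (R - 1 - k))]
      · apply sum_le_sum_of_subset_of_nonneg
        · intro x hx
          rw [mem_image] at hx
          obtain ⟨h, hh, rfl⟩ := hx
          rw [mem_Icc] at hh ⊢
          omega
        · exact fun x _ _ => hf x
      · intro x _ y _ hxy
        simpa using hxy
    linarith
  refine (sum_le_sum h1).trans (le_of_eq ?_)
  rw [sum_const, card_range, nsmul_eq_mul]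
  ring

lemma reorg (R : ℕ) (A x y : ℕ → ℕ → ℝ) (c : ℝ) :
    ∑ k ∈ range R, ∑ h ∈ Icc 1 (R - 1 - k), (A k h + c * (1 + (x k h / 2 + y k h / 2))) =
      ∑ k ∈ range R, ∑ h ∈ Icc 1 (R - 1 - k), A k h + c * (∑ k ∈ range R, (((R - 1 - k : ℕ) : ℝ)) +
        (∑ k ∈ range R, ∑ h ∈ Icc 1 (R - 1 - k), (x k h + y k h)) / 2) := by
  have e1 : ∀ k, ∑ h ∈ Icc 1 (R - 1 - k), (A k h + c * (1 + (x k h / 2 + y k h / 2))) =
      ∑ h ∈ Icc 1 (R - 1 - k), A k h + c * (((R - 1 - k : ℕ) : ℝ) + (∑ h ∈ Icc 1 (R - 1 - k), (x k h + y k h)) / 2) := by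
    intro k
    rw [sum_add_distrib, ← mul_sum, sum_add_distrib, sum_const, Nat.card_Icc, Nat.add_sub_cancel, nsmul_eq_mul, mul_one, sum_div]
    congr 3
    apply sum_congr rfl
    intro h _
    ring
  rw [sum_congr rfl fun k _ => e1 k, sum_add_distrib, ← mul_sum, sum_add_distrib, sum_div]

/-- the second moment for fewer than `(2 - ε) log² N` shifts -/
theorem two_sq (T a w : ℕ) (ε δ η : ℝ) (hε1 : ε ≤ 1) (hδ : 0 < δ) (hδ1 : δ ≤ 1 / 4) (hδε : 6 * δ ≤ ε)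
    (hη : 0 < η) (hη1 : η ≤ 1 / 100)
    (hsh : ∀ H : ℕ, ∑ h ∈ Icc 1 H, (Real.exp (2 * Pw w * (Fw w h ^ 2 - 1)) - 1) ≤ η * H) (hδη : Real.exp (4 * δ * Pw w) ≤ 1 + η) :
    ∃ K : ℝ, 0 ≤ K ∧ ∀ᶠ N : ℕ in atTop, ∀ q : ℕ, ((N ^ 2 : ℕ) : ℝ) ≤ q * Real.log ((N ^ 2 : ℕ) : ℝ) ^ a → q ≤ N ^ 2 →
      ∀ (m : ℕ) (b : Fin m → ℕ), (∀ j, b j ≤ T * N ^ 2) →
      (m : ℝ) ≤ (1 - ε) * (Real.log ((N ^ 2 : ℕ) : ℝ) * Real.log N) → ∃ (n : ℕ → ℕ) (R : ℕ), (N : ℝ) / (16 * Wd w) ≤ R ∧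
        (∀ k < R, 1 ≤ n k ∧ n k ≤ N) ∧ (∀ k k', n k = n k' → k = k') ∧
        (∀ k < R, ∀ j, Cd w (Real.log ((N ^ 2 : ℕ) : ℝ)) δ K q (b j) (n k ^ 2)) ∧
        (((Fintype.piFinset fun j => Ioc (b j) (b j + q)).filter fun s => 1 / 2 * R < |Zs w q b (fun k => n k ^ 2) R s - R|).card : ℝ) *
          (1 / 2) ^ 2 ≤ 200 * η * (q : ℝ) ^ m := by
  classical
  obtain ⟨K, hK, h1⟩ := cd_ev T a w δ (9 / 16) hδ hδ1 (by norm_num) (by norm_num)
  obtain ⟨C₀, hC₀, h2⟩ := sieve a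
  obtain ⟨Φ, hΦ⟩ : ∃ Φ : ℝ, Φ = Fw 0 (Wd w ^ 2) := ⟨_, rfl⟩
  have hΦ1 : 1 ≤ Φ := by rw [hΦ]; exact one_le_Fw _ _
  obtain ⟨c₁, hc₁⟩ : ∃ c₁ : ℝ, c₁ = 4 * C₀ * Φ ^ C₀ := ⟨_, rfl⟩
  have hc₁0 : 0 ≤ c₁ := by rw [hc₁]; positivity
  obtain ⟨Km, hKm, h3⟩ := moments c₁ hc₁0 (2 * C₀)
  have hWpos := Wd_pos w
  have hP := one_le_Pw w
  refine ⟨K, hK, ?_⟩
  have hsq : Tendsto (fun N : ℕ => N ^ 2) atTop atTop := tendsto_pow_atTop two_ne_zero
  filter_upwards [hsq.eventually h1, hsq.eventually h2, hsq.eventually (hl_uni T a 16 δ hδ),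
    ev_log (64 * (200 * Wd w) ^ 2 / η + 17 * 2 * Km * 16 / η + 20), ev_log (Real.log (16 * Wd w / η) / (ε / 2)), eventually_ge_atTop 3,
    eventually_ge_atTop (16 * Wd w)] with N g1 g2 g3 g4 g5 g6 g7 q hq hqN m b hb hm
  obtain ⟨X, hX⟩ : ∃ X, X = N ^ 2 := ⟨_, rfl⟩
  have hN0 : (0 : ℝ) < N := by exact_mod_cast (by omega : 0 < N)
  obtain ⟨ℓ, hℓ⟩ : ∃ ℓ, ℓ = Real.log (N : ℝ) := ⟨_, rfl⟩
  have hLℓ : Real.log ((N ^ 2 : ℕ) : ℝ) = 2 * ℓ := by
    push_cast
    rw [Real.log_pow, hℓ]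
    norm_num
  obtain ⟨E, hE1, hE2, hE3⟩ := g3
  rw [← hX] at g1 g2 hq hqN hb hE1 hE2 hE3 hLℓ hm ⊢
  obtain ⟨L, hL⟩ : ∃ L, L = Real.log (X : ℝ) := ⟨_, rfl⟩
  rw [← hL] at hLℓ
  rw [← hℓ] at g4 g5 hm
  rw [← hL] at g1 g2 hq hE2 hE3 hm ⊢
  have hℓ20 : 20 ≤ ℓ := by
    have a1 : 0 ≤ 64 * (200 * Wd w) ^ 2 / η := by positivity
    have a2 : 0 ≤ 17 * 2 * Km * 16 / η := by positivity
    linarith
  have hL0 : 0 < L := by linarith
  have hL1 : 1 ≤ L := by linarith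
  obtain ⟨W, hW⟩ : ∃ W, W = Wd w := ⟨_, rfl⟩
  have hWp : 0 < W := by rw [hW]; exact hWpos
  have hWr : (0 : ℝ) < W := by exact_mod_cast hWp
  rw [← hW] at g4 g5 g7 hΦ ⊢
  obtain ⟨k₀, hk₀⟩ : ∃ k₀, k₀ = 3 * N / (4 * W) + 1 := ⟨_, rfl⟩
  obtain ⟨R, hR⟩ : ∃ R : ℕ, R = N / (8 * W) := ⟨_, rfl⟩
  obtain ⟨n, hn⟩ : ∃ n : ℕ → ℕ, n = fun k => W * (k₀ + k) := ⟨_, rfl⟩
  have hRr : (N : ℝ) / (16 * W) ≤ R := by
    have a1 : (N : ℝ) < (8 * W : ℕ) * ((R : ℝ) + 1) := by rw [hR]; exact_mod_cast Nat.lt_mul_div_succ N (by omega)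
    have a2 : (16 * W : ℝ) ≤ N := by exact_mod_cast g7
    rw [div_le_iff₀ (by positivity)]
    push_cast at a1
    nlinarith
  have hR0 : 0 < R := by
    have : (0 : ℝ) < R := lt_of_lt_of_le (by positivity) hRr
    exact_mod_cast this
  have hRr0 : (0 : ℝ) < R := by exact_mod_cast hR0
  have hRN : 8 * (W * R) ≤ N := by
    have := Nat.mul_div_le N (8 * W)
    rw [← hR] at this
    nlinarith
  have hnk : ∀ k < R, 3 * N ≤ 4 * n k ∧ n k ≤ N := by
    intro k hk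
    rw [hn]
    simp only
    constructor
    · have := (Nat.lt_mul_div_succ (3 * N) (by omega : 0 < 4 * W)).le
      rw [← hk₀] at this
      nlinarith
    · have a1 : 4 * (W * (3 * N / (4 * W))) ≤ 3 * N := by
        have := Nat.mul_div_le (3 * N) (4 * W)
        nlinarith
      have a3 : W * (1 + k) ≤ W * R := Nat.mul_le_mul_left _ (by omega)
      have a4 : W * (k₀ + k) = W * (3 * N / (4 * W)) + W * (1 + k) := by rw [hk₀]; ring
      omega
  have hnk2 : ∀ k < R, 9 * X ≤ 16 * n k ^ 2 ∧ n k ^ 2 ≤ X := by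
    intro k hk
    obtain ⟨a1, a2⟩ := hnk k hk
    rw [hX]
    constructor
    · nlinarith
    · exact Nat.pow_le_pow_left a2 2
  have hcd : ∀ k < R, ∀ j, Cd w L δ K q (b j) (n k ^ 2) := by
    intro k hk j
    obtain ⟨a1, a2⟩ := hnk2 k hk
    apply g1 q hq hqN (b j) (n k ^ 2) (hb j) a2
    · have : (9 : ℝ) * X ≤ 16 * (n k ^ 2 : ℕ) := by exact_mod_cast a1
      linarith
    · rw [hn, ← hW]
      exact Dvd.dvd.pow (dvd_mul_right _ _) two_ne_zero
  have hε0 : 0 < ε := by linarith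
  have hmL : (m : ℝ) ≤ (1 - ε) * (L * ℓ) := hm
  have hm2 : (m : ℝ) ≤ L ^ 2 := by
    have a1 : 0 ≤ ε * (L * ℓ) := by positivity
    have a2 : L * ℓ ≤ L ^ 2 := by
      rw [sq]
      exact mul_le_mul_of_nonneg_left (by linarith) hL0.le
    linarith
  refine ⟨n, R, hRr, fun k hk => ⟨by have := hnk k hk; omega, (hnk k hk).2⟩, ?_, hcd, ?_⟩
  · intro k k' hkk
    rw [hn] at hkk
    simp only at hkk
    have := Nat.eq_of_mul_eq_mul_left hWp hkk
    omega
  obtain ⟨D, hD⟩ : ∃ D : ℕ → ℕ → ℕ, D = fun k h => W ^ 2 * (h * (2 * (k₀ + k) + h)) := ⟨_, rfl⟩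
  have hnD : ∀ k h, n (k + h) ^ 2 = n k ^ 2 + D k h := by
    intro k h
    rw [hn, hD]
    ring
  obtain ⟨g, hg⟩ : ∃ g : ℕ → ℕ → ℝ, g = fun k h => if D k h ∈ E then 2 * (C₀ * Fw 0 (D k h) ^ C₀) else
    2 * Pw w * (Fw w (h * (2 * (k₀ + k) + h)) - 1) + 4 * δ * Pw w := ⟨_, rfl⟩
  have hFw1 : ∀ u, 0 ≤ 2 * Pw w * (Fw w u - 1) := fun u => by
    have := one_le_Fw w u
    apply mul_nonneg (by linarith) (by linarith)
  have hg0 : ∀ k h, 0 ≤ g k h := by
    intro k h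
    rw [hg]
    simp only
    have a1 := one_le_Fw 0 (D k h)
    have a2 := hFw1 (h * (2 * (k₀ + k) + h))
    split_ifs
    · positivity
    · have : 0 ≤ 4 * δ * Pw w := by positivity
      linarith
  have hDX : ∀ k h, k + h < R → D k h ≤ X := by
    intro k h hkh
    have a1 := (hnk2 (k + h) hkh).2
    rw [hnD] at a1
    omega
  have hD1 : ∀ k h, 1 ≤ h → 1 ≤ D k h := by
    intro k h hh
    rw [hD]
    simp only
    apply Nat.succ_le_of_lt
    apply Nat.mul_pos (by positivity)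
    apply Nat.mul_pos (by omega) (by omega)
  apply secmomG w q b (fun k => n k ^ 2) D hnD R hR0 L δ K hcd g _ (200 * η) (1 / 2) (by norm_num) _
  · -- the coordinates
    intro k h hh hkh j
    have hk : k < R := by omega
    have hcd2 : Cd w L δ K q (b j) (n k ^ 2 + D k h) := by
      have := hcd (k + h) hkh j
      rwa [hnD] at this
    obtain ⟨a1, a2⟩ := hnk2 k hk
    by_cases hmem : D k h ∈ E
    · have e : g k h = 2 * (C₀ * Fw 0 (D k h) ^ C₀) := by rw [hg]; simp only; rw [if_pos hmem]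
      rw [e]
      have a0 := one_le_Fw 0 (D k h)
      apply (hcd k hk j).bad hcd2 (C₀ * Fw 0 (D k h) ^ C₀) (by positivity)
      exact g2 (n k ^ 2 + b j) q (D k h) hq hqN (hD1 k h hh)
    · have e : g k h = 2 * Pw w * (Fw w (h * (2 * (k₀ + k) + h)) - 1) + 4 * δ * Pw w := by rw [hg]; simp only; rw [if_neg hmem]
      rw [e]
      apply (hcd k hk j).good hcd2 (Fw w (h * (2 * (k₀ + k) + h))) (one_le_Fw w _)
      have := hE3 (n k ^ 2 + b j) q (by omega) (by nlinarith [hb j]) hq hqN (D k h) (hD1 k h hh) (hDX k h hkh) hmem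
      refine this.trans ?_
      apply mul_le_mul_of_nonneg_right _ (by positivity)
      apply mul_le_mul_of_nonneg_left _ (by linarith)
      rw [hD]
      simp only
      rw [hW]
      exact Fw_W2 w _ (Nat.succ_le_of_lt (Nat.mul_pos (by omega) (by omega)))
  · -- the sums
    have b1 : (R : ℝ) * Real.exp (m * ((1 + 3 * δ) / L)) ≤ η * (R : ℝ) ^ 2 := by
      have c1 : (m : ℝ) * ((1 + 3 * δ) / L) ≤ ℓ - ε / 2 * ℓ := by
        have d1 : (m : ℝ) * ((1 + 3 * δ) / L) ≤ ((1 - ε) * (L * ℓ)) * ((1 + 3 * δ) / L) :=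
          mul_le_mul_of_nonneg_right hmL (by positivity)
        have d2 : ((1 - ε) * (L * ℓ)) * ((1 + 3 * δ) / L) = ((1 - ε) * (1 + 3 * δ)) * ℓ := by field_simp
        have d3 : (1 - ε) * (1 + 3 * δ) ≤ 1 - ε / 2 := by nlinarith
        have d4 := mul_le_mul_of_nonneg_right d3 (by linarith : 0 ≤ ℓ)
        linarith
      have c2 : Real.exp (m * ((1 + 3 * δ) / L)) ≤ η * R := by
        refine (Real.exp_le_exp.2 c1).trans ?_
        rw [Real.exp_sub, hℓ, Real.exp_log hN0, ← hℓ]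
        have d1 : 16 * W / η ≤ Real.exp (ε / 2 * ℓ) := by
          rw [div_le_iff₀ (by positivity)] at g5
          have := Real.exp_le_exp.2 g5
          rw [Real.exp_log (by positivity)] at this
          rwa [mul_comm ℓ] at this
        rw [div_le_iff₀ (Real.exp_pos _)]
        have d2 : (N : ℝ) = (η * (N / (16 * W))) * (16 * W / η) := by field_simp
        calc (N : ℝ) = (η * (N / (16 * W))) * (16 * W / η) := d2
          _ ≤ (η * R) * Real.exp (ε / 2 * ℓ) := mul_le_mul (mul_le_mul_of_nonneg_left hRr hη.le) d1 (by positivity) (by positivity)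
      calc (R : ℝ) * Real.exp (m * ((1 + 3 * δ) / L)) ≤ R * (η * R) := mul_le_mul_of_nonneg_left c2 hRr0.le
        _ = _ := by ring
    -- the sums over the two factors run up to `B`
    obtain ⟨B, hB⟩ : ∃ B, B = 2 * k₀ + 3 * R := ⟨_, rfl⟩
    have hBR : (B : ℝ) ≤ 32 * R := by
      have a1 : (k₀ : ℝ) ≤ 3 * N / (4 * W) + 1 := by
        rw [hk₀]
        push_cast
        have : ((3 * N / (4 * W) : ℕ) : ℝ) ≤ ((3 * N : ℕ) : ℝ) / ((4 * W : ℕ) : ℝ) := Nat.cast_div_le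
        push_cast at this
        linarith
      have a2 : 3 * (N : ℝ) / (4 * W) = 12 * (N / (16 * W)) := by field_simp; norm_num
      have a3 : (1 : ℝ) ≤ R := by exact_mod_cast hR0
      rw [hB]
      push_cast
      rw [a2] at a1
      linarith
    -- the good pairs
    have b2 : ∀ k ∈ range R, ∀ h ∈ Icc 1 (R - 1 - k), Real.exp (m * (g k h / L ^ 2)) ≤
        (if D k h ∈ E then Real.exp (2 * (C₀ * Fw 0 (D k h) ^ C₀)) else 0) +
          (1 + η) * (1 + ((Real.exp (2 * Pw w * (Fw w h ^ 2 - 1)) - 1) / 2 +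
            (Real.exp (2 * Pw w * (Fw w (2 * (k₀ + k) + h) ^ 2 - 1)) - 1) / 2)) := by
      intro k _ h hh
      rw [mem_Icc] at hh
      have c1 : Real.exp (m * (g k h / L ^ 2)) ≤ Real.exp (g k h) := by
        apply Real.exp_le_exp.2
        have : (m : ℝ) * (g k h / L ^ 2) ≤ L ^ 2 * (g k h / L ^ 2) := mul_le_mul_of_nonneg_right hm2 (div_nonneg (hg0 k h) (by positivity))
        refine this.trans (le_of_eq ?_)
        field_simp
      refine c1.trans ?_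
      have d1 : Real.exp (2 * Pw w * (Fw w (h * (2 * (k₀ + k) + h)) - 1)) ≤
          1 + ((Real.exp (2 * Pw w * (Fw w h ^ 2 - 1)) - 1) / 2 +
            (Real.exp (2 * Pw w * (Fw w (2 * (k₀ + k) + h) ^ 2 - 1)) - 1) / 2) := by
        obtain ⟨u, hu⟩ : ∃ u, u = Fw w h := ⟨_, rfl⟩
        obtain ⟨v, hv⟩ : ∃ v, v = Fw w (2 * (k₀ + k) + h) := ⟨_, rfl⟩
        have e1 := Fw_mul w h (2 * (k₀ + k) + h) hh.1 (by omega)
        rw [← hu, ← hv] at e1 ⊢
        have e2 : 2 * Pw w * (Fw w (h * (2 * (k₀ + k) + h)) - 1) ≤ Pw w * (u ^ 2 - 1) + Pw w * (v ^ 2 - 1) := by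
          have : 2 * (u * v) ≤ u ^ 2 + v ^ 2 := by nlinarith [sq_nonneg (u - v)]
          nlinarith
        have e3 := exp_avg (Pw w * (u ^ 2 - 1)) (Pw w * (v ^ 2 - 1))
        have e4 := (Real.exp_le_exp.2 e2).trans e3
        rw [← mul_assoc, ← mul_assoc] at e4
        linarith
      have d0 : 0 ≤ Real.exp (2 * Pw w * (Fw w (h * (2 * (k₀ + k) + h)) - 1)) := (Real.exp_pos _).le
      by_cases hmem : D k h ∈ E
      · have e : g k h = 2 * (C₀ * Fw 0 (D k h) ^ C₀) := by rw [hg]; simp only; rw [if_pos hmem]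
        rw [if_pos hmem, e]
        have : 0 ≤ (1 + η) * (1 + ((Real.exp (2 * Pw w * (Fw w h ^ 2 - 1)) - 1) / 2 +
            (Real.exp (2 * Pw w * (Fw w (2 * (k₀ + k) + h) ^ 2 - 1)) - 1) / 2)) := mul_nonneg (by linarith) (by linarith)
        linarith
      · have e : g k h = 4 * δ * Pw w + 2 * Pw w * (Fw w (h * (2 * (k₀ + k) + h)) - 1) := by rw [hg]; simp only; rw [if_neg hmem]; ring
        rw [if_neg hmem, e, zero_add, Real.exp_add]
        exact mul_le_mul hδη d1 d0 (by linarith)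
    have hfe : ∀ u : ℕ, 0 ≤ Real.exp (2 * Pw w * (Fw w u ^ 2 - 1)) - 1 := by
      intro u
      have e1 := one_le_Fw w u
      have e2 : 0 ≤ 2 * Pw w * (Fw w u ^ 2 - 1) := mul_nonneg (by linarith) (by nlinarith)
      have := Real.one_le_exp e2
      linarith
    have b3 := two_sums R k₀ B (fun u => Real.exp (2 * Pw w * (Fw w u ^ 2 - 1)) - 1) hfe η hη.le hsh (by omega) (by omega)
    -- the bad pairs
    have b4 : ∑ k ∈ range R, ∑ h ∈ Icc 1 (R - 1 - k), (if D k h ∈ E then Real.exp (2 * (C₀ * Fw 0 (D k h) ^ C₀)) else 0) ≤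
        η * (R : ℝ) ^ 2 := by
      have c1 : ∀ k h, 1 ≤ h → Real.exp (2 * (C₀ * Fw 0 (D k h) ^ C₀)) ≤ ℓ +
          (Real.exp (c₁ * Fw 0 h ^ (2 * C₀)) + Real.exp (c₁ * Fw 0 (2 * (k₀ + k) + h) ^ (2 * C₀))) / ℓ := by
        intro k h hh
        obtain ⟨u, hu⟩ : ∃ u, u = Fw 0 h := ⟨_, rfl⟩
        obtain ⟨v, hv⟩ : ∃ v, v = Fw 0 (2 * (k₀ + k) + h) := ⟨_, rfl⟩
        have hu1 : 1 ≤ u := by rw [hu]; exact one_le_Fw _ _
        have hv1 : 1 ≤ v := by rw [hv]; exact one_le_Fw _ _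
        have e1 : Fw 0 (D k h) ≤ Φ * (u * v) := by
          rw [hD, hΦ, hu, hv]
          simp only
          refine (Fw_mul 0 (W ^ 2) (h * (2 * (k₀ + k) + h)) (Nat.one_le_pow _ _ hWp) (Nat.succ_le_of_lt (Nat.mul_pos (by omega) (by omega)))).trans ?_
          apply mul_le_mul_of_nonneg_left (Fw_mul 0 h _ hh (by omega))
          have := one_le_Fw 0 (W ^ 2)
          linarith
        rw [← hu, ← hv]
        have e2 : 2 * (C₀ * Fw 0 (D k h) ^ C₀) ≤ c₁ / 4 * u ^ (2 * C₀) + c₁ / 4 * v ^ (2 * C₀) := by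
          have f1 : Fw 0 (D k h) ^ C₀ ≤ (Φ * (u * v)) ^ C₀ := pow_le_pow_left₀ (by linarith [one_le_Fw 0 (D k h)]) e1 C₀
          have f2 : (Φ * (u * v)) ^ C₀ = Φ ^ C₀ * (u ^ C₀ * v ^ C₀) := by rw [mul_pow, mul_pow]
          have f3 : u ^ C₀ * v ^ C₀ ≤ (u ^ (2 * C₀) + v ^ (2 * C₀)) / 2 := by
            have f4 : u ^ (2 * C₀) = (u ^ C₀) ^ 2 := by rw [mul_comm, pow_mul]
            have f5 : v ^ (2 * C₀) = (v ^ C₀) ^ 2 := by rw [mul_comm, pow_mul]
            rw [f4, f5]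
            nlinarith [sq_nonneg (u ^ C₀ - v ^ C₀)]
          have f6 : (0 : ℝ) ≤ 2 * C₀ := by positivity
          calc 2 * (C₀ * Fw 0 (D k h) ^ C₀) = (2 * C₀) * Fw 0 (D k h) ^ C₀ := by ring
            _ ≤ (2 * C₀) * (Φ ^ C₀ * (u ^ C₀ * v ^ C₀)) := by rw [← f2]; exact mul_le_mul_of_nonneg_left f1 f6
            _ ≤ (2 * C₀) * (Φ ^ C₀ * ((u ^ (2 * C₀) + v ^ (2 * C₀)) / 2)) := by
                apply mul_le_mul_of_nonneg_left _ f6
                exact mul_le_mul_of_nonneg_left f3 (by positivity)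
            _ = _ := by rw [hc₁]; ring
        have e3 := exp_avg (c₁ / 2 * u ^ (2 * C₀)) (c₁ / 2 * v ^ (2 * C₀))
        have e4 : Real.exp (2 * (C₀ * Fw 0 (D k h) ^ C₀)) ^ 2 ≤
            (Real.exp (c₁ * u ^ (2 * C₀)) + Real.exp (c₁ * v ^ (2 * C₀))) / 2 := by
          rw [← Real.exp_nat_mul]
          refine (Real.exp_le_exp.2 ?_).trans (e3.trans (le_of_eq ?_))
          · push_cast
            linarith
          · rw [show 2 * (c₁ / 2 * u ^ (2 * C₀)) = c₁ * u ^ (2 * C₀) by ring, show 2 * (c₁ / 2 * v ^ (2 * C₀)) = c₁ * v ^ (2 * C₀) by ring]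
        obtain ⟨y, hy⟩ : ∃ y, y = Real.exp (2 * (C₀ * Fw 0 (D k h) ^ C₀)) := ⟨_, rfl⟩
        rw [← hy] at e4 ⊢
        have hℓ0 : 0 < ℓ := by linarith
        have e5 : y ≤ ℓ + y ^ 2 / ℓ := by
          have : ℓ + y ^ 2 / ℓ - y = ((ℓ - y / 2) ^ 2 + 3 / 4 * y ^ 2) / ℓ := by field_simp; ring
          have : 0 ≤ ((ℓ - y / 2) ^ 2 + 3 / 4 * y ^ 2) / ℓ := by positivity
          linarith
        have e6 : y ^ 2 / ℓ ≤ (Real.exp (c₁ * u ^ (2 * C₀)) + Real.exp (c₁ * v ^ (2 * C₀))) / ℓ := by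
          apply div_le_div_of_nonneg_right _ hℓ0.le
          have := Real.exp_pos (c₁ * u ^ (2 * C₀))
          have := Real.exp_pos (c₁ * v ^ (2 * C₀))
          linarith
        linarith
      have hℓ0 : 0 < ℓ := by linarith
      have c2 : ∑ k ∈ range R, ∑ h ∈ Icc 1 (R - 1 - k), (if D k h ∈ E then Real.exp (2 * (C₀ * Fw 0 (D k h) ^ C₀)) else 0) ≤
          ∑ k ∈ range R, ∑ h ∈ Icc 1 (R - 1 - k), ((if D k h ∈ E then ℓ else 0) +
            (Real.exp (c₁ * Fw 0 h ^ (2 * C₀)) + Real.exp (c₁ * Fw 0 (2 * (k₀ + k) + h) ^ (2 * C₀))) / ℓ) := by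
        apply sum_le_sum
        intro k _
        apply sum_le_sum
        intro h hh
        rw [mem_Icc] at hh
        split_ifs
        · exact c1 k h hh.1
        · have := Real.exp_pos (c₁ * Fw 0 h ^ (2 * C₀))
          have := Real.exp_pos (c₁ * Fw 0 (2 * (k₀ + k) + h) ^ (2 * C₀))
          positivity
      refine c2.trans ?_
      simp only [sum_add_distrib, add_div]
      have c3 : ∑ k ∈ range R, ∑ h ∈ Icc 1 (R - 1 - k), (if D k h ∈ E then ℓ else 0) ≤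
          ℓ * (ℓ ^ 8 * E.card + X * (1 + Real.log X) ^ 3 / ℓ ^ 8) := by
        have d1 := bad_pairs W k₀ R X hWp E hE1 (ℓ ^ 8) (by positivity)
        refine le_trans ?_ (mul_le_mul_of_nonneg_left d1 hℓ0.le)
        have d2 : ∑ k ∈ range R, ∑ h ∈ Icc 1 (R - 1 - k), (if D k h ∈ E then ℓ else 0) ≤
            ∑ k ∈ range R, ∑ h ∈ Icc 1 R, (if D k h ∈ E then ℓ else 0) := by
          apply sum_le_sum
          intro k _
          apply sum_le_sum_of_subset_of_nonneg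
          · intro h hh
            rw [mem_Icc] at hh ⊢
            omega
          · intro h _ _
            split_ifs <;> linarith
        refine d2.trans (le_of_eq ?_)
        rw [← sum_product', ← sum_filter, sum_const, nsmul_eq_mul, mul_comm, hD]
      have c4 : ∑ k ∈ range R, ∑ h ∈ Icc 1 (R - 1 - k), Real.exp (c₁ * Fw 0 h ^ (2 * C₀)) / ℓ +
          ∑ k ∈ range R, ∑ h ∈ Icc 1 (R - 1 - k), Real.exp (c₁ * Fw 0 (2 * (k₀ + k) + h) ^ (2 * C₀)) / ℓ ≤ 2 * Km * R * B / ℓ := by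
        have d1 := two_sums R k₀ B (fun u => Real.exp (c₁ * Fw 0 u ^ (2 * C₀))) (fun u => (Real.exp_pos _).le) Km (by linarith) h3
          (by omega) (by omega)
        simp only [← sum_div, ← add_div]
        apply div_le_div_of_nonneg_right _ hℓ0.le
        refine le_trans (le_of_eq ?_) d1
        simp only [sum_add_distrib]
      have hXr : (X : ℝ) = N ^ 2 := by rw [hX]; push_cast; ring
      have hNR : (N : ℝ) ≤ 16 * W * R := by
        rw [div_le_iff₀ (by positivity)] at hRr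
        linarith
      have hXR : (X : ℝ) ≤ (200 * W) ^ 2 * (R : ℝ) ^ 2 := by
        rw [hXr, ← mul_pow]
        apply pow_le_pow_left₀ hN0.le
        nlinarith
      have c5 : ℓ * (ℓ ^ 8 * E.card + X * (1 + Real.log X) ^ 3 / ℓ ^ 8) ≤ η / 2 * (R : ℝ) ^ 2 := by
        have d1 : (E.card : ℝ) ≤ X / ℓ ^ 16 := by
          refine hE2.trans ?_
          apply div_le_div_of_nonneg_left (Nat.cast_nonneg _) (by positivity)
          exact pow_le_pow_left₀ hℓ0.le (by linarith) 16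
        have d2 : ℓ * (ℓ ^ 8 * E.card) ≤ X / ℓ ^ 7 := by
          calc ℓ * (ℓ ^ 8 * E.card) ≤ ℓ * (ℓ ^ 8 * (X / ℓ ^ 16)) := by
                apply mul_le_mul_of_nonneg_left _ hℓ0.le
                exact mul_le_mul_of_nonneg_left d1 (by positivity)
            _ = _ := by field_simp
        have d3 : (1 + Real.log X) ^ 3 ≤ 27 * ℓ ^ 3 := by
          rw [← hL, hLℓ]
          calc (1 + 2 * ℓ) ^ 3 ≤ (3 * ℓ) ^ 3 := pow_le_pow_left₀ (by linarith) (by linarith) 3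
            _ = _ := by ring
        have d4 : ℓ * (X * (1 + Real.log X) ^ 3 / ℓ ^ 8) ≤ 27 * (X / ℓ ^ 4) := by
          calc ℓ * (X * (1 + Real.log X) ^ 3 / ℓ ^ 8) ≤ ℓ * (X * (27 * ℓ ^ 3) / ℓ ^ 8) := by
                apply mul_le_mul_of_nonneg_left _ hℓ0.le
                apply div_le_div_of_nonneg_right _ (by positivity)
                exact mul_le_mul_of_nonneg_left d3 (Nat.cast_nonneg _)
            _ = _ := by field_simp
        have d5 : (X : ℝ) / ℓ ^ 7 ≤ X / ℓ := by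
          apply div_le_div_of_nonneg_left (Nat.cast_nonneg _) hℓ0
          exact le_self_pow₀ (by linarith) (by norm_num)
        have d6 : (X : ℝ) / ℓ ^ 4 ≤ X / ℓ := by
          apply div_le_div_of_nonneg_left (Nat.cast_nonneg _) hℓ0
          exact le_self_pow₀ (by linarith) (by norm_num)
        have d7 : 28 * ((X : ℝ) / ℓ) ≤ η / 2 * (R : ℝ) ^ 2 := by
          have f1 : 64 * (200 * (W : ℝ)) ^ 2 ≤ η * ℓ := by
            have a2 : 0 ≤ 17 * 2 * Km * 16 / η := by positivity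
            have : 64 * (200 * (W : ℝ)) ^ 2 / η ≤ ℓ := by linarith
            rw [div_le_iff₀ hη] at this
            linarith
          rw [← mul_div_assoc, div_le_iff₀ hℓ0]
          have f2 : 28 * (X : ℝ) ≤ 28 * ((200 * W) ^ 2 * (R : ℝ) ^ 2) := by linarith
          have f3 : (64 * (200 * (W : ℝ)) ^ 2) * (R : ℝ) ^ 2 ≤ (η * ℓ) * (R : ℝ) ^ 2 := mul_le_mul_of_nonneg_right f1 (by positivity)
          have f4 : 0 ≤ (200 * (W : ℝ)) ^ 2 * (R : ℝ) ^ 2 := by positivity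
          nlinarith
        rw [mul_add]
        linarith
      have c6 : 2 * Km * R * B / ℓ ≤ η / 2 * (R : ℝ) ^ 2 := by
        have d1 : 17 * 2 * Km * 16 ≤ η * ℓ := by
          have a1 : 0 ≤ 64 * (200 * (W : ℝ)) ^ 2 / η := by positivity
          have : 17 * 2 * Km * 16 / η ≤ ℓ := by linarith
          rw [div_le_iff₀ hη] at this
          linarith
        rw [div_le_iff₀ hℓ0]
        have d2 : 2 * Km * R * B ≤ 2 * Km * R * (32 * R) := mul_le_mul_of_nonneg_left hBR (by positivity)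
        have d3 : (17 * 2 * Km * 16) * (R : ℝ) ^ 2 ≤ (η * ℓ) * (R : ℝ) ^ 2 := mul_le_mul_of_nonneg_right d1 (by positivity)
        have d4 : 0 ≤ Km * (R : ℝ) ^ 2 := by positivity
        nlinarith
      linarith
    have b5 : ∑ k ∈ range R, ∑ h ∈ Icc 1 (R - 1 - k), Real.exp (m * (g k h / L ^ 2)) ≤
        η * (R : ℝ) ^ 2 + (1 + η) * ((R : ℝ) ^ 2 / 2 + η * R * B) := by
      refine (sum_le_sum fun k hk => sum_le_sum fun h hh => b2 k hk h hh).trans ?_
      have c1 : ∑ k ∈ range R, ∑ h ∈ Icc 1 (R - 1 - k), ((if D k h ∈ E then Real.exp (2 * (C₀ * Fw 0 (D k h) ^ C₀)) else 0) +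
          (1 + η) * (1 + ((Real.exp (2 * Pw w * (Fw w h ^ 2 - 1)) - 1) / 2 +
            (Real.exp (2 * Pw w * (Fw w (2 * (k₀ + k) + h) ^ 2 - 1)) - 1) / 2))) =
          ∑ k ∈ range R, ∑ h ∈ Icc 1 (R - 1 - k), (if D k h ∈ E then Real.exp (2 * (C₀ * Fw 0 (D k h) ^ C₀)) else 0) +
          (1 + η) * (∑ k ∈ range R, (((R - 1 - k : ℕ) : ℝ)) + (∑ k ∈ range R, ∑ h ∈ Icc 1 (R - 1 - k),
            ((Real.exp (2 * Pw w * (Fw w h ^ 2 - 1)) - 1) + (Real.exp (2 * Pw w * (Fw w (2 * (k₀ + k) + h) ^ 2 - 1)) - 1))) / 2) := by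
        exact reorg R (fun k h => if D k h ∈ E then Real.exp (2 * (C₀ * Fw 0 (D k h) ^ C₀)) else 0)
          (fun _ h => Real.exp (2 * Pw w * (Fw w h ^ 2 - 1)) - 1)
          (fun k h => Real.exp (2 * Pw w * (Fw w (2 * (k₀ + k) + h) ^ 2 - 1)) - 1) (1 + η)
      rw [c1]
      have c2 := tri R
      have c3 : (1 + η) * (∑ k ∈ range R, (((R - 1 - k : ℕ) : ℝ)) + (∑ k ∈ range R, ∑ h ∈ Icc 1 (R - 1 - k),
            ((Real.exp (2 * Pw w * (Fw w h ^ 2 - 1)) - 1) + (Real.exp (2 * Pw w * (Fw w (2 * (k₀ + k) + h) ^ 2 - 1)) - 1))) / 2) ≤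
          (1 + η) * ((R : ℝ) ^ 2 / 2 + η * R * B) := by
        apply mul_le_mul_of_nonneg_left _ (by linarith)
        linarith
      linarith
    have b6 : η * R * B ≤ 32 * (η * (R : ℝ) ^ 2) := by
      have := mul_le_mul_of_nonneg_left hBR (by positivity : 0 ≤ η * R)
      calc η * R * B ≤ η * R * (32 * R) := this
        _ = _ := by ring
    have b7 : (1 + η) * ((R : ℝ) ^ 2 / 2 + η * R * B) ≤ (1 + η) * ((R : ℝ) ^ 2 / 2 + 32 * (η * (R : ℝ) ^ 2)) :=
      mul_le_mul_of_nonneg_left (by linarith) (by linarith)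
    have b8 : (1 + η) * ((R : ℝ) ^ 2 / 2 + 32 * (η * (R : ℝ) ^ 2)) ≤ (R : ℝ) ^ 2 / 2 + 34 * (η * (R : ℝ) ^ 2) := by
      have f1 : 0 ≤ η * (R : ℝ) ^ 2 := by positivity
      have f2 : η * (η * (R : ℝ) ^ 2) ≤ 1 / 100 * (η * (R : ℝ) ^ 2) := mul_le_mul_of_nonneg_right hη1 f1
      nlinarith
    have f1 : 0 ≤ η * (R : ℝ) ^ 2 := by positivity
    linarith

end Pool.Agent.Run7.h931.SQ
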