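import Pool.Agent.Run7.h931.SQ.Av

/-!
# Random shifts after squares, part 2: one exceptional set for all windows
-/

set_option autoImplicit false

namespace Pool.Agent.Run7.h931.SQ

open Finset Filter
open Pool.Agent.Run7.h931.RS (Pw Fw Wd Wd_pos one_le_Pw one_le_Fw Cc hl_up ev_log)

lemma Cc_two (x q h y l₁ l₂ : ℕ) (h1 : y ≤ x) (h2 : x + q ≤ y + l₁ + l₂) : Cc x q h ≤ Cc y l₁ h + Cc (y + l₁) l₂ h := by
  classical
  unfold Cc
  refine le_trans (card_le_card ?_) (card_union_le _ _)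
  intro t ht
  rw [mem_filter, mem_Ioc] at ht
  rw [mem_union, mem_filter, mem_filter, mem_Ioc, mem_Ioc]
  by_cases h3 : t ≤ y + l₁
  · exact Or.inl ⟨⟨by omega, h3⟩, ht.2⟩
  · exact Or.inr ⟨⟨by omega, by omega⟩, ht.2⟩

theorem hl_uni (T a A : ℕ) (δ : ℝ) (hδ : 0 < δ) : ∀ᶠ N : ℕ in atTop, ∃ E : Finset ℕ, (∀ e ∈ E, 1 ≤ e ∧ e ≤ N) ∧
    (E.card : ℝ) ≤ N / Real.log N ^ A ∧ ∀ x q : ℕ, 9 * N ≤ 16 * x → x ≤ (T + 1) * N →
    (N : ℝ) ≤ q * Real.log N ^ a → q ≤ N → ∀ h : ℕ, 1 ≤ h → h ≤ N →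
      h ∉ E → (Cc x q h : ℝ) ≤ (1 + δ) * Fw 0 h * (q / Real.log N ^ 2) := by
  classical
  have e4 : ∀ᶠ N : ℕ in atTop, (2 : ℝ) * Real.log N ^ (a + 1) ≤ N := by
    have h := isLittleO_log_rpow_rpow_atTop ((a + 1 : ℕ) : ℝ) (zero_lt_one)
    have h' := (h.comp_tendsto tendsto_natCast_atTop_atTop).bound (c := 1 / 2) (by positivity)
    filter_upwards [h', eventually_ge_atTop 3] with N hN hN3
    simp only [Function.comp, Real.rpow_natCast, Real.rpow_one] at hN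
    have hN3r : (3 : ℝ) ≤ N := by exact_mod_cast hN3
    have hl : 0 ≤ Real.log (N : ℝ) := Real.log_nonneg (by linarith)
    rw [Real.norm_of_nonneg (by positivity), Real.norm_of_nonneg (by positivity)] at hN
    linarith
  filter_upwards [hl_up (T + 1) (a + 1) (A + 2 * a + 3) (δ / 2) (by positivity), e4, ev_log (4 / δ + 20 + (2 * T + 6) ^ 2),
    eventually_ge_atTop 3] with N g1 g2 g3 g4
  obtain ⟨L, hL⟩ : ∃ L, L = Real.log (N : ℝ) := ⟨_, rfl⟩
  rw [← hL] at g1 g2 g3 ⊢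
  have hN3 : (3 : ℝ) ≤ N := by exact_mod_cast g4
  have hN0 : (0 : ℝ) < N := by linarith
  have hδ4 : 0 < 4 / δ := by positivity
  have hT2 : (0 : ℝ) ≤ (2 * T + 6) ^ 2 := by positivity
  have hL20 : 20 ≤ L := by linarith
  have hL0 : 0 < L := by linarith
  have hLa : 0 < L ^ (a + 1) := by positivity
  have hLa' : 1 ≤ L ^ a := one_le_pow₀ (by linarith)
  obtain ⟨G, hG⟩ : ∃ G : ℕ, G = ⌊(N : ℝ) / L ^ (a + 1)⌋₊ := ⟨_, rfl⟩
  have hG1 : (G : ℝ) ≤ N / L ^ (a + 1) := by rw [hG]; exact Nat.floor_le (by positivity)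
  have hG2 : (N : ℝ) / (2 * L ^ (a + 1)) ≤ G := by
    have a1 : (N : ℝ) / L ^ (a + 1) < G + 1 := by rw [hG]; exact Nat.lt_floor_add_one _
    have a2 : 2 ≤ (N : ℝ) / L ^ (a + 1) := by rwa [le_div_iff₀ hLa]
    have a3 : (N : ℝ) / (2 * L ^ (a + 1)) = (N / L ^ (a + 1)) / 2 := by field_simp
    rw [a3]
    linarith
  have hG0 : (0 : ℝ) < G := lt_of_lt_of_le (by positivity) hG2
  have hGp : 0 < G := by exact_mod_cast hG0
  have hG16 : 16 * G ≤ N := by
    have : (16 : ℝ) * G ≤ N := by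
      have a1 : (N : ℝ) / L ^ (a + 1) ≤ N / 16 := by
        apply div_le_div_of_nonneg_left hN0.le (by norm_num)
        rw [pow_succ]
        nlinarith
      linarith
    exact_mod_cast this
  -- the exceptional sets of the windows with endpoints on the grid
  have hE : ∀ i j : ℕ, ∃ E : Finset ℕ, (E.card : ℝ) ≤ N / L ^ (A + 2 * a + 3) ∧
      (N ≤ 2 * (i * G) → i * G ≤ (T + 1 + 1) * N → (N : ℝ) ≤ (j * G : ℕ) * L ^ (a + 1) → j * G ≤ N → ∀ h : ℕ, 1 ≤ h → h ≤ N →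
        h ∉ E → (Cc (i * G) (j * G) h : ℝ) ≤ (1 + δ / 2) * Fw 0 h * ((j * G : ℕ) / L ^ 2)) := by
    intro i j
    by_cases hc : N ≤ 2 * (i * G) ∧ i * G ≤ (T + 1 + 1) * N ∧ (N : ℝ) ≤ (j * G : ℕ) * L ^ (a + 1) ∧ j * G ≤ N
    · obtain ⟨E, hE1, hE2⟩ := g1 (i * G) (j * G) hc.1 hc.2.1 hc.2.2.1 hc.2.2.2
      exact ⟨E, hE1, fun _ _ _ _ => hE2⟩
    · refine ⟨∅, by rw [card_empty, Nat.cast_zero]; positivity, fun h1 h2 h3 h4 => absurd ⟨h1, h2, h3, h4⟩ hc⟩
  choose E hE1 hE2 using hE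
  obtain ⟨I, hI⟩ : ∃ I : ℕ, I = (T + 2) * N / G + 2 := ⟨_, rfl⟩
  have hIr : (I : ℝ) ≤ (2 * T + 6) * L ^ (a + 1) := by
    have a1 : (((T + 2) * N / G : ℕ) : ℝ) ≤ ((T + 2) * N : ℕ) / (G : ℝ) := Nat.cast_div_le
    have a2 : (((T + 2) * N : ℕ) : ℝ) / (G : ℝ) ≤ 2 * (T + 2) * L ^ (a + 1) := by
      rw [div_le_iff₀ hG0]
      push_cast
      calc ((T : ℝ) + 2) * N = 2 * (T + 2) * L ^ (a + 1) * (N / (2 * L ^ (a + 1))) := by field_simp
        _ ≤ _ := mul_le_mul_of_nonneg_left hG2 (by positivity)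
    have a3 : (2 : ℝ) ≤ 2 * L ^ (a + 1) := by
      have : 1 ≤ L ^ (a + 1) := one_le_pow₀ (by linarith)
      linarith
    rw [hI]
    push_cast
    linarith
  refine ⟨((range I ×ˢ range I).biUnion fun x => E x.1 x.2) ∩ Icc 1 N, ?_, ?_, ?_⟩
  · intro e he
    rw [mem_inter, mem_Icc] at he
    exact he.2
  · have a1 : ((((range I ×ˢ range I).biUnion fun x => E x.1 x.2) ∩ Icc 1 N).card : ℝ) ≤
        ∑ x ∈ range I ×ˢ range I, ((E x.1 x.2).card : ℝ) := by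
      have : (((range I ×ˢ range I).biUnion fun x => E x.1 x.2) ∩ Icc 1 N).card ≤ ∑ x ∈ range I ×ˢ range I, (E x.1 x.2).card :=
        (card_le_card inter_subset_left).trans card_biUnion_le
      exact_mod_cast this
    refine a1.trans ((sum_le_sum fun x _ => hE1 x.1 x.2).trans ?_)
    rw [sum_const, card_product, card_range, nsmul_eq_mul]
    push_cast
    have a2 : (I : ℝ) * I ≤ ((2 * T + 6) * L ^ (a + 1)) * ((2 * T + 6) * L ^ (a + 1)) :=
      mul_le_mul hIr hIr (Nat.cast_nonneg _) (by positivity)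
    have a3 : (0 : ℝ) ≤ N / L ^ (A + 2 * a + 3) := by positivity
    refine (mul_le_mul_of_nonneg_right a2 a3).trans ?_
    have a4 : ((2 * (T : ℝ) + 6) * L ^ (a + 1)) * ((2 * T + 6) * L ^ (a + 1)) * (N / L ^ (A + 2 * a + 3)) =
        (2 * T + 6) ^ 2 / L * (N / L ^ A) := by
      rw [div_mul_div_comm, mul_div_assoc', div_eq_div_iff (by positivity) (by positivity)]
      ring
    rw [a4]
    have a5 : (2 * (T : ℝ) + 6) ^ 2 / L ≤ 1 := by
      rw [div_le_one hL0]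
      linarith
    have a6 : (0 : ℝ) ≤ N / L ^ A := by positivity
    nlinarith
  · intro x q hx1 hx2 hq1 hq2 h hh1 hh2 hhE
    have hqG : (N : ℝ) / L ^ a ≤ q := by rw [div_le_iff₀ (by positivity)]; exact hq1
    have hqG' : (G : ℝ) * L ≤ q := by
      refine le_trans ?_ hqG
      calc (G : ℝ) * L ≤ (N / L ^ (a + 1)) * L := mul_le_mul_of_nonneg_right hG1 hL0.le
        _ = _ := by rw [pow_succ]; field_simp
    obtain ⟨i₁, hi₁⟩ : ∃ i, i = x / G := ⟨_, rfl⟩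
    obtain ⟨i₃, hi₃⟩ : ∃ i, i = (x + q) / G + 1 := ⟨_, rfl⟩
    obtain ⟨D, hD⟩ : ∃ D, D = i₃ - i₁ := ⟨_, rfl⟩
    have b1 : i₁ * G ≤ x := by rw [hi₁]; exact Nat.div_mul_le_self x G
    have b2 : x < (i₁ + 1) * G := by rw [hi₁, mul_comm]; exact Nat.lt_mul_div_succ x hGp
    have b3 : x + q < i₃ * G := by rw [hi₃, mul_comm]; exact Nat.lt_mul_div_succ (x + q) hGp
    have b4 : i₃ * G ≤ x + q + G := by
      rw [hi₃, add_mul, one_mul]
      have := Nat.div_mul_le_self (x + q) G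
      omega
    have b5 : i₁ ≤ i₃ := by
      rw [hi₁, hi₃]
      exact (Nat.div_le_div_right (by omega)).trans (Nat.le_succ _)
    have b6 : i₃ = i₁ + D := by omega
    have b7 : D * G ≤ q + 2 * G := by
      rw [b6] at b4
      nlinarith
    have b8 : q ≤ D * G := by
      rw [b6] at b3
      nlinarith
    obtain ⟨j₁, hj₁⟩ : ∃ j, j = D / 2 := ⟨_, rfl⟩
    obtain ⟨j₂, hj₂⟩ : ∃ j, j = D - D / 2 := ⟨_, rfl⟩
    have b9 : j₁ + j₂ = D := by omega
    have b10 : 2 * j₁ ≤ D := by omega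
    have b11 : D ≤ 2 * j₁ + 1 := by omega
    have b12 : D ≤ 2 * j₂ := by omega
    have b13 : 2 * j₂ ≤ D + 1 := by omega
    have c1 := Cc_two x q h (i₁ * G) (j₁ * G) (j₂ * G) b1 (by
      have : i₁ * G + j₁ * G + j₂ * G = (i₁ + D) * G := by rw [← b9]; ring
      rw [this, ← b6]
      exact b3.le)
    have e1 : i₁ * G + j₁ * G = (i₁ + j₁) * G := by ring
    rw [e1] at c1
    have hi₃I : i₃ < I := by
      rw [hi₃, hI]
      have : (x + q) / G ≤ (T + 2) * N / G := Nat.div_le_div_right (by nlinarith)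
      omega
    have hDr : (q : ℝ) ≤ D * G := by exact_mod_cast b8
    have hlow : ∀ j : ℕ, D ≤ 2 * j + 1 → (N : ℝ) ≤ (j * G : ℕ) * L ^ (a + 1) := by
      intro j hj
      have f1 : (D : ℝ) ≤ 2 * j + 1 := by exact_mod_cast hj
      have f2 : (q : ℝ) ≤ (2 * j + 1) * G := hDr.trans (mul_le_mul_of_nonneg_right f1 hG0.le)
      have f3 : (N : ℝ) / L ^ (a + 1) ≤ j * G := by
        have f4 : (N : ℝ) / L ^ (a + 1) * L ≤ q := by
          refine le_trans (le_of_eq ?_) hqG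
          rw [pow_succ]
          field_simp
        have f5 : 0 < (N : ℝ) / L ^ (a + 1) := by positivity
        nlinarith
      push_cast
      rwa [div_le_iff₀ hLa] at f3
    have hhigh : ∀ j : ℕ, 2 * j ≤ D + 1 → j * G ≤ N := by
      intro j hj
      have : 2 * (j * G) ≤ (D + 1) * G := by nlinarith
      nlinarith
    have hnot : ∀ i j : ℕ, i < I → j < I → h ∉ E i j := by
      intro i j hi hj hmem
      apply hhE
      rw [mem_inter, mem_biUnion]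
      exact ⟨⟨(i, j), mem_product.2 ⟨mem_range.2 hi, mem_range.2 hj⟩, hmem⟩, mem_Icc.2 ⟨hh1, hh2⟩⟩
    have hstart : N ≤ 2 * (i₁ * G) := by
      have : (i₁ + 1) * G = i₁ * G + G := by ring
      omega
    have d1 := hE2 i₁ j₁ hstart (b1.trans (hx2.trans (by nlinarith))) (hlow j₁ b11) (hhigh j₁ (by omega)) h hh1 hh2
      (hnot i₁ j₁ (by omega) (by omega))
    have d2 := hE2 (i₁ + j₁) j₂ (by nlinarith) (by
      have f1 : (i₁ + j₁) * G ≤ x + j₁ * G := by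
        rw [add_mul]
        omega
      have f2 := hhigh j₁ (by omega)
      nlinarith) (hlow j₂ (by omega)) (hhigh j₂ b13) h hh1 hh2
      (hnot (i₁ + j₁) j₂ (by omega) (by omega))
    have hF := one_le_Fw 0 h
    have c1' : (Cc x q h : ℝ) ≤ Cc (i₁ * G) (j₁ * G) h + Cc ((i₁ + j₁) * G) (j₂ * G) h := by exact_mod_cast c1
    have d3 : (1 + δ / 2) * Fw 0 h * ((j₁ * G : ℕ) / L ^ 2) + (1 + δ / 2) * Fw 0 h * ((j₂ * G : ℕ) / L ^ 2) =
        (1 + δ / 2) * Fw 0 h * ((D * G : ℕ) / L ^ 2) := by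
      rw [← b9]
      push_cast
      ring
    have d4 : ((D * G : ℕ) : ℝ) ≤ (1 + 2 / L) * q := by
      have f1 : ((D * G : ℕ) : ℝ) ≤ q + 2 * G := by exact_mod_cast b7
      have f2 : (G : ℝ) ≤ q / L := by rwa [le_div_iff₀ hL0]
      have f3 : (1 + 2 / L) * (q : ℝ) = q + 2 * (q / L) := by ring
      linarith
    have d5 : (1 + δ / 2) * (1 + 2 / L) ≤ 1 + δ := by
      have f1 : 2 / L ≤ δ / (2 + δ) := by
        rw [div_le_div_iff₀ hL0 (by positivity)]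
        have : (4 / δ + 20) * δ ≤ L * δ := mul_le_mul_of_nonneg_right (by linarith) hδ.le
        have e5 : (4 / δ + 20) * δ = 4 + 20 * δ := by field_simp
        nlinarith
      have f2 : (1 + δ / 2) * (δ / (2 + δ)) = δ / 2 := by field_simp
      have f3 := mul_le_mul_of_nonneg_left f1 (by positivity : (0 : ℝ) ≤ 1 + δ / 2)
      linarith
    calc (Cc x q h : ℝ) ≤ (1 + δ / 2) * Fw 0 h * ((D * G : ℕ) / L ^ 2) := by linarith
      _ ≤ (1 + δ / 2) * Fw 0 h * (((1 + 2 / L) * q) / L ^ 2) := by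
          apply mul_le_mul_of_nonneg_left _ (by positivity)
          exact div_le_div_of_nonneg_right d4 (by positivity)
      _ = ((1 + δ / 2) * (1 + 2 / L)) * (Fw 0 h * (q / L ^ 2)) := by ring
      _ ≤ (1 + δ) * (Fw 0 h * (q / L ^ 2)) := mul_le_mul_of_nonneg_right d5 (by positivity)
      _ = _ := by ring

end Pool.Agent.Run7.h931.SQ
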